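import Mathlib

set_option autoImplicit false

namespace Pool.Agent.Helper61.SP

open Finset

/-- Average of a real function over all labelings. -/
noncomputable def av {ι α : Type*} [Fintype ι] [DecidableEq ι] [Fintype α]
    (f : (ι → α) → ℝ) : ℝ := (∑ q : ι → α, f q) / ((Fintype.card α : ℝ) ^ (Fintype.card ι))

set_option linter.unusedSectionVars false
section
variable {ι κ α : Type*} [Fintype ι] [DecidableEq ι] [Fintype κ] [DecidableEq κ] [Fintype α]

theorem card_pos_pow [Nonempty α] : (0:ℝ) < (Fintype.card α : ℝ) ^ (Fintype.card ι) := by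
  have : 0 < Fintype.card α := Fintype.card_pos
  positivity

theorem av_add (f g : (ι → α) → ℝ) : av (fun q => f q + g q) = av f + av g := by
  unfold av; rw [Finset.sum_add_distrib]; ring

theorem av_sub (f g : (ι → α) → ℝ) : av (fun q => f q - g q) = av f - av g := by
  unfold av; rw [Finset.sum_sub_distrib]; ring

theorem av_mul_left (c : ℝ) (f : (ι → α) → ℝ) : av (fun q => c * f q) = c * av f := by
  unfold av; rw [← Finset.mul_sum]; ring

theorem av_const [Nonempty α] (c : ℝ) : av (fun _ : ι → α => c) = c := by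
  unfold av
  rw [Finset.sum_const, Finset.card_univ, Fintype.card_fun]
  have h := card_pos_pow (ι := ι) (α := α)
  rw [nsmul_eq_mul]
  push_cast
  field_simp

theorem av_mono {f g : (ι → α) → ℝ} (h : ∀ q, f q ≤ g q) : av f ≤ av g := by
  unfold av
  apply div_le_div_of_nonneg_right (Finset.sum_le_sum fun q _ => h q)
  positivity

theorem av_nonneg {f : (ι → α) → ℝ} (h : ∀ q, 0 ≤ f q) : 0 ≤ av f := by
  unfold av
  apply div_nonneg (Finset.sum_nonneg fun q _ => h q)
  positivity

theorem av_sum {β : Type*} (s : Finset β) (f : β → (ι → α) → ℝ) :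
    av (fun q => ∑ b ∈ s, f b q) = ∑ b ∈ s, av (f b) := by
  unfold av
  rw [Finset.sum_comm, Finset.sum_div]

theorem av_comp_inj [Nonempty α] (z : κ → ι) (hz : Function.Injective z) (f : (κ → α) → ℝ) :
    av (fun q : ι → α => f (q ∘ z)) = av f := by
  classical
  let e1 : κ ⊕ {x : ι // x ∉ Set.range z} ≃ ι :=
    (Equiv.sumCongr (Equiv.ofInjective z hz) (Equiv.refl _)).trans (Equiv.sumCompl (fun x => x ∈ Set.range z))
  let e2 : ((κ → α) × ({x : ι // x ∉ Set.range z} → α)) ≃ (ι → α) :=
    (Equiv.sumArrowEquivProdArrow κ {x : ι // x ∉ Set.range z} α).symm.trans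
      (Equiv.arrowCongr e1 (Equiv.refl α))
  have hcard : Fintype.card ι = Fintype.card κ + Fintype.card {x : ι // x ∉ Set.range z} := by
    rw [← Fintype.card_sum]
    exact (Fintype.card_congr e1).symm
  have he : ∀ x : (κ → α) × ({x : ι // x ∉ Set.range z} → α), (e2 x) ∘ z = x.1 := by
    intro x
    funext k
    have h1 : e1.symm (z k) = Sum.inl k := by
      rw [Equiv.symm_apply_eq]
      simp [e1]
    simp only [e2, Function.comp, Equiv.trans_apply, Equiv.arrowCongr_apply, Equiv.refl_apply]
    rw [h1]
    simp [Equiv.sumArrowEquivProdArrow]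
  have hs : (∑ q : ι → α, f (q ∘ z)) = (∑ r : κ → α, f r) *
      (Fintype.card α : ℝ) ^ (Fintype.card {x : ι // x ∉ Set.range z}) := by
    rw [← Equiv.sum_comp e2 (fun q => f (q ∘ z)), Fintype.sum_prod_type]
    simp only [he]
    rw [Finset.sum_mul]
    apply Finset.sum_congr rfl
    intro r _
    rw [Finset.sum_const, Finset.card_univ, Fintype.card_fun, nsmul_eq_mul]
    push_cast
    ring
  unfold av
  rw [hs, hcard, pow_add]
  have h1 := card_pos_pow (ι := κ) (α := α)
  have h2 := card_pos_pow (ι := {x : ι // x ∉ Set.range z}) (α := α)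
  field_simp

/-- Change of variables by a permutation of the labels. -/
theorem av_comp_perm (e : Equiv.Perm α) (f : (ι → α) → ℝ) :
    av (fun q : ι → α => f (e ∘ q)) = av f := by
  unfold av
  congr 1
  exact Equiv.sum_comp (Equiv.arrowCongr (Equiv.refl ι) e) f

end

end Pool.Agent.Helper61.SP
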