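import Pool.Agent.Helper61.SP.Group2

set_option autoImplicit false

namespace Pool.Agent.Helper61.SP

open Finset

def InW (N n g w v : ℕ) : Prop := g * N + w * n + 1 ≤ v ∧ v + 2 ≤ g * N + w * n + n

theorem InW_group (N n M g w v : ℕ) (hN : N = n * M) (hw : w < M) (h : InW N n g w v) :
    v / N = g ∧ (v % N) / n = w := by
  unfold InW at h
  have h1 : w * n + n ≤ N := by
    rw [hN]
    calc w * n + n = (w + 1) * n := by ring
      _ ≤ M * n := Nat.mul_le_mul_right _ hw
      _ = n * M := by ring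
  have h2 : v / N = g := by
    apply Nat.div_eq_of_lt_le
    · omega
    · have : (g + 1) * N = g * N + N := by ring
      omega
  refine ⟨h2, ?_⟩
  have h3 : v % N = v - g * N := by
    have := Nat.div_add_mod v N
    rw [h2] at this
    have h4 : N * g = g * N := Nat.mul_comm _ _
    omega
  rw [h3]
  apply Nat.div_eq_of_lt_le
  · omega
  · have : (w + 1) * n = w * n + n := by ring
    omega

/-- the conflict relation between windows -/
def RW (N n k : ℕ) (σ : Seq k) (g w g' w' : ℕ) : Prop :=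
  ∃ e, e + 1 < k ∧ ((InW N n g w (σ.y e) ∧ InW N n g' w' (σ.y (e + 1))) ∨
    (InW N n g w (σ.y (e + 1)) ∧ InW N n g' w' (σ.y e)))

theorem RW_symm (N n k : ℕ) (σ : Seq k) (g w g' w' : ℕ) (h : RW N n k σ g w g' w') :
    RW N n k σ g' w' g w := by
  obtain ⟨e, he, h | h⟩ := h
  · exact ⟨e, he, Or.inr ⟨h.2, h.1⟩⟩
  · exact ⟨e, he, Or.inl ⟨h.2, h.1⟩⟩

open Classical in
theorem RW_deg (N n M K k : ℕ) (hN : N = n * M) (σ : Seq k) (g : Fin K) (w : Fin M) :
    (univ.filter (fun x : Fin K × Fin M => RW N n k σ g w x.1 x.2)).card ≤ 2 * n := by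
  let h : ℕ × ℕ → ℕ × ℕ := fun vb =>
    let v' := if vb.2 = 0 then σ.y (σ.yi vb.1 + 1) else σ.y (σ.yi vb.1 - 1)
    (v' / N, (v' % N) / n)
  have hsub : (univ.filter (fun x : Fin K × Fin M => RW N n k σ g w x.1 x.2)).image
      (fun x => ((x.1 : ℕ), (x.2 : ℕ))) ⊆
      ((Finset.Ico (g * N + w * n) (g * N + w * n + n)) ×ˢ (range 2)).image h := by
    intro z hz
    rw [Finset.mem_image] at hz
    obtain ⟨x, hx, rfl⟩ := hz
    rw [Finset.mem_filter] at hx
    obtain ⟨_, e, he, hx⟩ := hx
    rw [Finset.mem_image]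
    rcases hx with ⟨h1, h2⟩ | ⟨h1, h2⟩
    · refine ⟨(σ.y e, 0), ?_, ?_⟩
      · rw [Finset.mem_product, Finset.mem_Ico, Finset.mem_range]
        unfold InW at h1
        simp only
        omega
      · obtain ⟨e1, e2⟩ := InW_group N n M x.1 x.2 _ hN x.2.2 h2
        simp only [h, if_true]
        rw [σ.yiy e (by omega), e1, e2]
    · refine ⟨(σ.y (e + 1), 1), ?_, ?_⟩
      · rw [Finset.mem_product, Finset.mem_Ico, Finset.mem_range]
        unfold InW at h1
        simp only
        omega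
      · obtain ⟨e1, e2⟩ := InW_group N n M x.1 x.2 _ hN x.2.2 h2
        simp only [h, one_ne_zero, if_false]
        rw [σ.yiy (e + 1) (by omega), Nat.add_sub_cancel, e1, e2]
  have hinj : Function.Injective (fun x : Fin K × Fin M => ((x.1 : ℕ), (x.2 : ℕ))) := by
    rintro ⟨a, b⟩ ⟨a', b'⟩ hab
    simp only [Prod.mk.injEq] at hab
    exact Prod.ext (Fin.ext hab.1) (Fin.ext hab.2)
  rw [← Finset.card_image_of_injective _ hinj]
  refine (Finset.card_le_card hsub).trans (Finset.card_image_le.trans ?_)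
  rw [Finset.card_product, Nat.card_Ico, Finset.card_range]
  omega

theorem exists_choice (N n M K k : ℕ) (hN : N = n * M) (hk : k = K * N) (hn : 0 < n)
    (hM : 8 * n ≤ M) (σ : Seq k) :
    ∃ c : ℕ → ℕ, (∀ g, g < K → c g < M) ∧ Free N n k c σ := by
  classical
  obtain ⟨c, hc⟩ := exists_transversal (ι := Fin K) (M := M)
    (fun g w g' w' => RW N n k σ g w g' w')
    (fun g w g' w' h => RW_symm N n k σ g w g' w' h) (2 * n)
    (fun g w => by
      have := RW_deg N n M K k hN σ g w
      convert this)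
    (by omega) (by omega)
  have hNpos : 0 < N := by
    rw [hN]; exact Nat.mul_pos hn (by omega)
  refine ⟨fun g => if h : g < K then (c ⟨g, h⟩ : ℕ) else 0, ?_, ?_⟩
  · intro g hg
    simp only [hg, dif_pos]
    exact (c ⟨g, hg⟩).2
  · intro e he h1 h2
    by_contra hne
    have hg1 : σ.y e / N < K := by
      rw [Nat.div_lt_iff_lt_mul hNpos]
      have := σ.ylt e (by omega)
      omega
    have hg2 : σ.y (e + 1) / N < K := by
      rw [Nat.div_lt_iff_lt_mul hNpos]
      have := σ.ylt (e + 1) he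
      omega
    have hcc := hc ⟨_, hg1⟩ ⟨_, hg2⟩ (fun h => hne (congrArg Fin.val h))
    apply hcc
    refine ⟨e, he, Or.inl ⟨?_, ?_⟩⟩
    · unfold Intr wst at h1
      simp only [dif_pos hg1] at h1
      exact h1
    · unfold Intr wst at h2
      simp only [dif_pos hg2] at h2
      exact h2

end Pool.Agent.Helper61.SP
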