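import Pool.Agent.Helper61.SP.Local

set_option autoImplicit false

namespace Pool.Agent.Helper61.SP

open Finset

theorem sum_fun_prod {κ β : Type*} [Fintype κ] [DecidableEq κ] [Fintype β] (g : κ → β → ℝ) :
    (∑ r : κ → β, ∏ x, g x (r x)) = ∏ x, ∑ b, g x b := by
  rw [Finset.prod_univ_sum]
  simp

theorem av_prod_pow {κ1 κ2 α : Type*} [Fintype κ1] [DecidableEq κ1] [Fintype κ2] [DecidableEq κ2]
    [Fintype α] (g : (κ2 → α) → ℝ) :
    av (fun r : κ1 × κ2 → α => ∏ x : κ1, g (fun j => r (x, j))) = (av g) ^ (Fintype.card κ1) := by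
  unfold av
  rw [← Equiv.sum_comp (Equiv.curry κ1 κ2 α).symm]
  have h1 : ∀ i : κ1 → κ2 → α, (∏ x : κ1, g (fun j => (Equiv.curry κ1 κ2 α).symm i (x, j)))
      = ∏ x : κ1, g (i x) := by
    intro i
    rfl
  simp only [h1]
  rw [sum_fun_prod (fun _ : κ1 => g), Finset.prod_const, Finset.card_univ, div_pow,
    Fintype.card_prod, mul_comm (Fintype.card κ1), pow_mul]

theorem quart_count (R : ℕ) (j : Fin 4) :
    (∑ a : Fin (4 * R), if (a:ℕ) / R = j then (1:ℝ) else 0) = R := by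
  rw [← Equiv.sum_comp (finProdFinEquiv (m := 4) (n := R)), Fintype.sum_prod_type]
  have h1 : ∀ x : Fin 4, ∀ y : Fin R,
      (if ((finProdFinEquiv (x, y) : Fin (4 * R)) : ℕ) / R = j then (1:ℝ) else 0)
        = if x = j then 1 else 0 := by
    intro x y
    have hR : 0 < R := lt_of_le_of_lt (Nat.zero_le _) y.2
    have : ((finProdFinEquiv (x, y) : Fin (4 * R)) : ℕ) / R = x := by
      simp only [finProdFinEquiv_apply_val]
      rw [Nat.add_mul_div_left _ _ hR, Nat.div_eq_of_lt y.2, zero_add]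
    rw [this]
    congr 1
    apply propext
    exact (Fin.ext_iff).symm
  simp only [h1]
  rw [Finset.sum_comm]
  simp

theorem av_quart (R : ℕ) (hR : 0 < R) :
    av (fun r : Fin 4 → Fin (4 * R) => if ∀ j : Fin 4, (r j : ℕ) / R = j then (1:ℝ) else 0)
      = 1 / 256 := by
  unfold av
  have h1 : ∀ r : Fin 4 → Fin (4 * R),
      (if ∀ j : Fin 4, (r j : ℕ) / R = j then (1:ℝ) else 0) =
        ∏ j : Fin 4, (if (r j : ℕ) / R = j then (1:ℝ) else 0) := by
    intro r
    rw [Fintype.prod_boole]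
    congr
  simp only [h1]
  rw [sum_fun_prod (fun (j : Fin 4) (a : Fin (4 * R)) => if (a:ℕ) / R = j then (1:ℝ) else 0)]
  simp only [quart_count]
  have : (R:ℝ) ≠ 0 := by positivity
  simp
  field_simp
  norm_num

theorem av_const_le {ι : Type*} [Fintype ι] [DecidableEq ι] (R : ℕ) (hR : 0 < R)
    (P : (ι → Fin (4 * R)) → Prop) [DecidablePred P] (X : Finset ℕ) (l : ℕ → Fin 4 → ι)
    (hl : ∀ x ∈ X, ∀ x' ∈ X, ∀ j j', l x j = l x' j' → x = x' ∧ j = j')
    (hP : ∀ q, P q → ∀ x ∈ X, ¬ ∀ j : Fin 4, (q (l x j) : ℕ) / R = j) :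
    av (fun q : ι → Fin (4 * R) => if P q then (1:ℝ) else 0) ≤ (255 / 256 : ℝ) ^ X.card := by
  have : NeZero (4 * R) := ⟨by omega⟩
  let z : X × Fin 4 → ι := fun y => l y.1 y.2
  have hz : Function.Injective z := by
    rintro ⟨⟨x, hx⟩, j⟩ ⟨⟨x', hx'⟩, j'⟩ h
    obtain ⟨h1, h2⟩ := hl x hx x' hx' j j' h
    simp [h1, h2]
  let g : (Fin 4 → Fin (4 * R)) → ℝ := fun r => 1 - (if ∀ j : Fin 4, (r j : ℕ) / R = j then (1:ℝ) else 0)
  have hg : av g = 255 / 256 := by
    simp only [g]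
    rw [av_sub, av_const, av_quart R hR]
    norm_num
  have h1 : av (fun q : ι → Fin (4 * R) => if P q then (1:ℝ) else 0) ≤
      av (fun q : ι → Fin (4 * R) => (fun r : X × Fin 4 → Fin (4 * R) =>
        ∏ x : X, g (fun j => r (x, j))) (q ∘ z)) := by
    apply av_mono
    intro q
    split_ifs with h
    · apply le_of_eq
      symm
      apply Finset.prod_eq_one
      intro x _
      have := hP q h x.1 x.2
      simp only [g, Function.comp, z]
      rw [if_neg this]
      norm_num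
    · apply Finset.prod_nonneg
      intro x _
      simp only [g]
      split_ifs <;> norm_num
  refine h1.trans ?_
  rw [av_comp_inj z hz (fun r : X × Fin 4 → Fin (4 * R) => ∏ x : X, g (fun j => r (x, j))),
    av_prod_pow, hg]
  simp

end Pool.Agent.Helper61.SP
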