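import Pool.Agent.Helper61.SP.Window

set_option autoImplicit false

namespace Pool.Agent.Helper61.SP

open Finset

def toD (D : Finset ℕ) (d0 : D) (x : ℕ) : D := if h : x ∈ D then ⟨x, h⟩ else d0

theorem toD_val (D : Finset ℕ) (d0 : D) (x : ℕ) (h : x ∈ D) : ((toD D d0 x : D) : ℕ) = x := by
  simp [toD, h]

theorem toD_inj (D : Finset ℕ) (d0 : D) (x y : ℕ) (hx : x ∈ D) (hy : y ∈ D)
    (h : toD D d0 x = toD D d0 y) : x = y := by
  rw [← toD_val D d0 x hx, ← toD_val D d0 y hy, h]

def Am (N n k : ℕ) (c : ℕ → ℕ) (σ : Seq k) (D : Finset ℕ) (d0 : D) (τ e : ℕ) : D :=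
  toD D d0 (ltr N n c (fun _ => τ) (σ.y e))

def Bm (N n k : ℕ) (c : ℕ → ℕ) (σ : Seq k) (D : Finset ℕ) (d0 : D) (τ e : ℕ) : D :=
  toD D d0 (ltr N n c (fun _ => τ) (σ.y (e + 1)))

/-- the letters of the box of the index `j` -/
def box (N n k : ℕ) (c : ℕ → ℕ) (σ : Seq k) (j : ℕ) : Fin 4 → ℕ :=
  ![base N (σ.y j) + 1,
    ltr N n c (fun _ => σ.y j - wst N n c (σ.y j / N)) (σ.y (j - 1)),
    base N (σ.y j),
    ltr N n c (fun _ => σ.y j - wst N n c (σ.y j / N)) (σ.y (j + 1))]

theorem div_four_lt {R : ℕ} {a b : ℕ} {i j : ℕ} (h : i < j) (ha : a / R = i)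
    (hb : b / R = j) : a < b := by
  by_contra hc
  push Not at hc
  have := Nat.div_le_div_right (c := R) hc
  omega

theorem ltr_const (N n : ℕ) (c : ℕ → ℕ) (τ v : ℕ) :
    ltr N n c (fun _ => τ) v = base N v + (if wst N n c (v / N) + τ ≤ v then 1 else 0) := rfl

/-- conflict-freeness of the window choice -/
def Free (N n k : ℕ) (c : ℕ → ℕ) (σ : Seq k) : Prop :=
  ∀ e, e + 1 < k → Intr N n c (σ.y e) → Intr N n c (σ.y (e + 1)) → σ.y e / N = σ.y (e + 1) / N

/-- endpoints of edges of a group have letters which only depend on the skip of that group -/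
theorem endpoint_fixed (N n k : ℕ) (c : ℕ → ℕ) (σ : Seq k) (hfree : Free N n k c σ) (g e i : ℕ)
    (he : e ∈ Eg N n k c σ g) (hi : i = e ∨ i = e + 1) (hg : σ.y i / N ≠ g) :
    ¬ Intr N n c (σ.y i) := by
  unfold Eg at he
  rw [Finset.mem_filter, Finset.mem_range] at he
  obtain ⟨hek, h⟩ := he
  intro hint
  rcases hi with rfl | rfl
  · rcases h with h | h
    · exact hg h.2
    · have := hfree _ (by omega) hint h.1
      exact hg (this.trans h.2)
  · rcases h with h | h
    · have := hfree _ (by omega) h.1 hint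
      exact hg (this.symm.trans h.2)
    · exact hg h.2

/-- the box event makes `T` drop -/
theorem T_drop (N n k : ℕ) (c : ℕ → ℕ) (σ : Seq k) (hfree : Free N n k c σ) (g j R : ℕ)
    (hj : j ∈ Jg N n k c σ g) (p : ℕ → Fin (4 * R))
    (hq : ∀ i : Fin 4, (p (box N n k c σ j i) : ℕ) / R = i) :
    ((Eg N n k c σ g).filter (fun e => p (ltr N n c (fun _ => σ.y j - wst N n c g + 1) (σ.y (e + 1)))
      ≤ p (ltr N n c (fun _ => σ.y j - wst N n c g + 1) (σ.y e)))).card <
    ((Eg N n k c σ g).filter (fun e => p (ltr N n c (fun _ => σ.y j - wst N n c g) (σ.y (e + 1)))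
      ≤ p (ltr N n c (fun _ => σ.y j - wst N n c g) (σ.y e)))).card := by
  unfold Jg at hj
  rw [Finset.mem_filter, Finset.mem_range] at hj
  obtain ⟨hjk, hj1, hj2, hInt, hgj⟩ := hj
  have h0 := hq 0
  have h1 := hq 1
  have h2 := hq 2
  have h3 := hq 3
  simp only [box, Matrix.cons_val_zero, Matrix.cons_val_one, Matrix.cons_val, hgj] at h0 h1 h2 h3
  have hInt' := hInt
  unfold Intr at hInt'
  rw [hgj] at hInt'
  set x := σ.y j - wst N n c g with hx
  have hyj : σ.y j = wst N n c g + x := by omega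
  -- letters of y j
  have hl1 : ltr N n c (fun _ => x) (σ.y j) = base N (σ.y j) + 1 := by
    rw [ltr_const, hgj, if_pos (by omega)]
  have hl2 : ltr N n c (fun _ => x + 1) (σ.y j) = base N (σ.y j) := by
    rw [ltr_const, hgj, if_neg (by omega), add_zero]
  have hstep : ∀ e ∈ Eg N n k c σ g, ∀ i, (i = e ∨ i = e + 1) → i ≠ j →
      ltr N n c (fun _ => x) (σ.y i) = ltr N n c (fun _ => x + 1) (σ.y i) := by
    intro e he i hi hij
    by_cases hd : σ.y i / N = g
    · apply ltr_step
      intro h
      rw [hd, ← hyj] at h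
      have hik : i < k := by
        have := Finset.mem_range.mp (Finset.mem_filter.mp he).1
        omega
      exact hij (σ.inj hik hjk h)
    · exact ltr_fixed N n c _ _ _ (endpoint_fixed N n k c σ hfree g e i he hi hd)
        (by omega) (by omega) (by omega) (by omega)
  have hjm : j - 1 + 1 = j := by omega
  have hjE : j - 1 ∈ Eg N n k c σ g := by
    unfold Eg
    rw [Finset.mem_filter, Finset.mem_range]
    refine ⟨by omega, Or.inr ?_⟩
    rw [hjm]
    exact ⟨hInt, hgj⟩
  have hjE2 : j ∈ Eg N n k c σ g := by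
    unfold Eg
    rw [Finset.mem_filter, Finset.mem_range]
    exact ⟨by omega, Or.inl ⟨hInt, hgj⟩⟩
  apply Finset.card_lt_card
  rw [Finset.ssubset_iff_of_subset]
  · refine ⟨j - 1, ?_, ?_⟩
    · rw [Finset.mem_filter]
      refine ⟨hjE, ?_⟩
      rw [hjm, hl1]
      exact le_of_lt (Fin.lt_def.mpr (div_four_lt (R := R) (i := 0) (j := 1) (by norm_num) h0 h1))
    · rw [Finset.mem_filter, not_and]
      intro _
      rw [hjm, hl2, ← hstep (j - 1) hjE (j - 1) (Or.inl rfl) (by omega), not_le]
      exact Fin.lt_def.mpr (div_four_lt (R := R) (i := 1) (j := 2) (by norm_num) h1 h2)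
  · intro e he
    rw [Finset.mem_filter] at he ⊢
    obtain ⟨heE, hle⟩ := he
    have hne1 : e + 1 ≠ j := by
      intro h
      have hej : e = j - 1 := by omega
      subst hej
      rw [hjm, hl2, ← hstep (j - 1) hjE (j - 1) (Or.inl rfl) (by omega)] at hle
      exact absurd (Fin.lt_def.mpr (div_four_lt (R := R) (i := 1) (j := 2) (by norm_num) h1 h2))
        (not_lt.mpr hle)
    have hne2 : e ≠ j := by
      intro h
      subst h
      rw [hl2, ← hstep e hjE2 (e + 1) (Or.inr rfl) (by omega)] at hle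
      exact absurd (Fin.lt_def.mpr (div_four_lt (R := R) (i := 2) (j := 3) (by norm_num) h2 h3))
        (not_lt.mpr hle)
    refine ⟨heE, ?_⟩
    rw [hstep e heE (e + 1) (Or.inr rfl) hne1, hstep e heE e (Or.inl rfl) hne2]
    exact hle

/-- the letters of the boxes of non-conflicting indices are distinct -/
theorem box_inj (N n k : ℕ) (c : ℕ → ℕ) (σ : Seq k) (g j j' : ℕ)
    (hj : j ∈ Jg N n k c σ g) (hj' : j' ∈ Jg N n k c σ g) (hc : j ≠ j' → ¬ conf σ j j')
    (i i' : Fin 4) (h : box N n k c σ j i = box N n k c σ j' i') : j = j' ∧ i = i' := by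
  unfold Jg at hj hj'
  rw [Finset.mem_filter, Finset.mem_range] at hj hj'
  obtain ⟨hjk, hj1, hj2, hInt, hgj⟩ := hj
  obtain ⟨hjk', hj1', hj2', hInt', hgj'⟩ := hj'
  -- each letter is base or base+1 of y (j + α - 1)
  have key : ∀ j, 1 ≤ j → ∀ i : Fin 4, ∃ α < 3, (box N n k c σ j i = base N (σ.y (j + α - 1)) ∨
      box N n k c σ j i = base N (σ.y (j + α - 1)) + 1) := by
    intro j hj1 i
    fin_cases i
    · refine ⟨1, by norm_num, Or.inr ?_⟩
      simp [box]
    · refine ⟨0, by norm_num, ?_⟩
      have := ltr_mem N n c (fun _ => σ.y j - wst N n c (σ.y j / N)) (σ.y (j - 1))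
      simpa [box] using this
    · refine ⟨1, by norm_num, Or.inl ?_⟩
      simp [box]
    · refine ⟨2, by norm_num, ?_⟩
      have := ltr_mem N n c (fun _ => σ.y j - wst N n c (σ.y j / N)) (σ.y (j + 1))
      simpa [box] using this
  by_cases hjj : j = j'
  · refine ⟨hjj, ?_⟩
    subst hjj
    set x := σ.y j - wst N n c (σ.y j / N) with hx
    have hxle : wst N n c (σ.y j / N) + x = σ.y j := by
      unfold Intr at hInt; omega
    have hl1 : base N (σ.y j) + 1 = ltr N n c (fun _ => x) (σ.y j) := by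
      rw [ltr_const, if_pos (by omega)]
    have hl2 : base N (σ.y j) = ltr N n c (fun _ => x + 1) (σ.y j) := by
      rw [ltr_const, if_neg (by omega), add_zero]
    have hmono := (ltr_strictMono N n c (fun _ => x)).injective
    have hmono2 := (ltr_strictMono N n c (fun _ => x + 1)).injective
    have hym : σ.y (j - 1) ≠ σ.y j := fun h => by have := σ.inj (by omega) (by omega) h; omega
    have hyp : σ.y (j + 1) ≠ σ.y j := fun h => by have := σ.inj (by omega) (by omega) h; omega
    have hmp : σ.y (j - 1) ≠ σ.y (j + 1) := fun h => by have := σ.inj (by omega) (by omega) h; omega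
    have n01 : base N (σ.y j) + 1 ≠ ltr N n c (fun _ => x) (σ.y (j - 1)) := by
      rw [hl1]; intro h; exact hym (hmono h).symm
    have n03 : base N (σ.y j) + 1 ≠ ltr N n c (fun _ => x) (σ.y (j + 1)) := by
      rw [hl1]; intro h; exact hyp (hmono h).symm
    have n13 : ltr N n c (fun _ => x) (σ.y (j - 1)) ≠ ltr N n c (fun _ => x) (σ.y (j + 1)) := by
      intro h; exact hmp (hmono h)
    have aux : ∀ v, v ≠ σ.y j → base N (σ.y j) ≠ ltr N n c (fun _ => x) v := by
      intro v hv h
      rcases lt_or_gt_of_ne hv with hlt | hgt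
      · rw [ltr_const] at h
        have hdiv : v / N ≤ σ.y j / N := Nat.div_le_div_right hlt.le
        by_cases hd : v / N = σ.y j / N
        · rw [hd, if_neg (by omega)] at h
          unfold base at h
          omega
        · unfold base at h
          split_ifs at h <;> omega
      · have h1 := ltr_strictMono N n c (fun _ => x) hgt
        rw [← hl1] at h1
        omega
    have n21 := aux _ hym
    have n23 := aux _ hyp
    fin_cases i <;> fin_cases i' <;> simp only [box, Matrix.cons_val_zero, Matrix.cons_val_one,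
      Matrix.cons_val, Fin.zero_eta, Fin.mk_one, Fin.reduceFinMk, Fin.isValue] at h ⊢ <;>
      first
        | rfl
        | (exfalso; omega)
        | (exfalso; exact n01 h)
        | (exfalso; exact n01 h.symm)
        | (exfalso; exact n03 h)
        | (exfalso; exact n03 h.symm)
        | (exfalso; exact n13 h)
        | (exfalso; exact n13 h.symm)
        | (exfalso; exact n21 h)
        | (exfalso; exact n21 h.symm)
        | (exfalso; exact n23 h)
        | (exfalso; exact n23 h.symm)
  · exfalso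
    obtain ⟨α, hα, h1⟩ := key j hj1 i
    obtain ⟨β, hβ, h2⟩ := key j' hj1' i'
    apply hc hjj
    refine ⟨α, hα, β, hβ, ?_, ?_⟩
    · by_contra hcon
      push Not at hcon
      have := base_lt N (v := σ.y (j' + β - 1)) (v' := σ.y (j + α - 1)) (by omega)
      omega
    · by_contra hcon
      push Not at hcon
      have := base_lt N (v := σ.y (j + α - 1)) (v' := σ.y (j' + β - 1)) (by omega)
      omega

end Pool.Agent.Helper61.SP
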