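import Pool.Agent.Helper61.SP.Group

set_option autoImplicit false

namespace Pool.Agent.Helper61.SP

open Finset

/-- cost of the group `g` for the skip position `τ` and labels `p` -/
def Tp {Q : ℕ} (N n k : ℕ) (c : ℕ → ℕ) (σ : Seq k) (g : ℕ) (p : ℕ → Fin Q) (τ : ℕ) : ℕ :=
  ((Eg N n k c σ g).filter (fun e => p (ltr N n c (fun _ => τ) (σ.y (e + 1)))
      ≤ p (ltr N n c (fun _ => τ) (σ.y e)))).card

theorem base_lt_of_lt (N K k : ℕ) (hk : k = K * N) (hN : 0 < N) (v : ℕ) (hv : v < k) :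
    base N v + 1 < k + K := by
  unfold base
  have : v / N < K := by
    rw [Nat.div_lt_iff_lt_mul hN]; omega
  omega

theorem Dg_lt (N n K k : ℕ) (hk : k = K * N) (hN : 0 < N) (c : ℕ → ℕ) (σ : Seq k) (g l : ℕ)
    (hl : l ∈ Dg N n k c σ g) : l < k + K := by
  unfold Dg at hl
  rw [Finset.mem_biUnion] at hl
  obtain ⟨e, he, hl⟩ := hl
  have hek := Finset.mem_range.mp (Finset.mem_filter.mp he).1
  have h1 := base_lt_of_lt N K k hk hN (σ.y e) (σ.ylt e (by omega))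
  have h2 := base_lt_of_lt N K k hk hN (σ.y (e + 1)) (σ.ylt (e + 1) (by omega))
  simp only [Finset.mem_insert, Finset.mem_singleton] at hl
  omega

theorem Jg_sub_Eg (N n k : ℕ) (c : ℕ → ℕ) (σ : Seq k) (g j : ℕ) (hj : j ∈ Jg N n k c σ g) :
    j - 1 ∈ Eg N n k c σ g ∧ j ∈ Eg N n k c σ g ∧ 1 ≤ j := by
  unfold Jg at hj
  rw [Finset.mem_filter, Finset.mem_range] at hj
  obtain ⟨hjk, hj1, hj2, hInt, hgj⟩ := hj
  have hjm : j - 1 + 1 = j := by omega
  refine ⟨?_, ?_, hj1⟩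
  · unfold Eg
    rw [Finset.mem_filter, Finset.mem_range]
    refine ⟨by omega, Or.inr ?_⟩
    rw [hjm]
    exact ⟨hInt, hgj⟩
  · unfold Eg
    rw [Finset.mem_filter, Finset.mem_range]
    exact ⟨by omega, Or.inl ⟨hInt, hgj⟩⟩

theorem box_mem (N n k : ℕ) (c : ℕ → ℕ) (σ : Seq k) (g j : ℕ) (hj : j ∈ Jg N n k c σ g)
    (i : Fin 4) : box N n k c σ j i ∈ Dg N n k c σ g := by
  obtain ⟨h1, h2, h3⟩ := Jg_sub_Eg N n k c σ g j hj
  have hb1 : base N (σ.y j) ∈ Dg N n k c σ g := by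
    unfold Dg; rw [Finset.mem_biUnion]; exact ⟨j, h2, by simp⟩
  have hb2 : base N (σ.y j) + 1 ∈ Dg N n k c σ g := by
    unfold Dg; rw [Finset.mem_biUnion]; exact ⟨j, h2, by simp⟩
  fin_cases i
  · simpa [box] using hb2
  · simpa [box] using ltr_mem_Dg1 N n k c (fun _ => σ.y j - wst N n c (σ.y j / N)) σ g (j - 1) h1
  · simpa [box] using hb1
  · simpa [box] using ltr_mem_Dg2 N n k c (fun _ => σ.y j - wst N n c (σ.y j / N)) σ g j h2

open Classical in
theorem const_bound (N n M K k R : ℕ) (hR : 0 < R) (hN : N = n * M) (hk : k = K * N)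
    (hn : 5 ≤ n) (c : ℕ → ℕ) (σ : Seq k) (hfree : Free N n k c σ) (g : ℕ) (hg : g < K)
    (hc : c g < M) (d0 : Dg N n k c σ g) :
    av (fun q : Dg N n k c σ g → Fin (4 * R) =>
      if ∀ t ∈ Finset.Icc 1 (n - 1), ∀ t' ∈ Finset.Icc 1 (n - 1),
        T (Eg N n k c σ g) (Am N n k c σ (Dg N n k c σ g) d0) (Bm N n k c σ (Dg N n k c σ g) d0) q t
        = T (Eg N n k c σ g) (Am N n k c σ (Dg N n k c σ g) d0) (Bm N n k c σ (Dg N n k c σ g) d0) q t'
      then (1:ℝ) else 0) ≤ (255 / 256 : ℝ) ^ ((n - 4) / 27) := by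
  obtain ⟨X, hXJ, hXcard, hXind⟩ := exists_indep (conf σ) (conf_symm σ) 27
    (Jg N n k c σ g).card (Jg N n k c σ g) rfl
    (fun j _ => ⟨0, by norm_num, 0, by norm_num, by omega, by omega⟩)
    (fun i _ => by
      have := card_conf N n k c σ g i
      convert this)
  have hJ := card_Jg N n M K k hN hk c σ g hg hc (by omega)
  have hXn : (n - 4) / 27 ≤ X.card := by
    apply Nat.div_le_of_le_mul
    omega
  have hl : ∀ x ∈ X, ∀ x' ∈ X, ∀ j j', toD (Dg N n k c σ g) d0 (box N n k c σ x j) =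
      toD (Dg N n k c σ g) d0 (box N n k c σ x' j') → x = x' ∧ j = j' := by
    intro x hx x' hx' j j' h
    have h1 := toD_inj _ _ _ _ (box_mem N n k c σ g x (hXJ hx) j)
      (box_mem N n k c σ g x' (hXJ hx') j') h
    exact box_inj N n k c σ g x x' (hXJ hx) (hXJ hx') (fun hne => hXind x hx x' hx' hne) j j' h1
  have hP : ∀ q : Dg N n k c σ g → Fin (4 * R), (∀ t ∈ Finset.Icc 1 (n - 1),
      ∀ t' ∈ Finset.Icc 1 (n - 1),
        T (Eg N n k c σ g) (Am N n k c σ (Dg N n k c σ g) d0) (Bm N n k c σ (Dg N n k c σ g) d0) q t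
        = T (Eg N n k c σ g) (Am N n k c σ (Dg N n k c σ g) d0) (Bm N n k c σ (Dg N n k c σ g) d0) q t') →
      ∀ x ∈ X, ¬ ∀ j : Fin 4, (q (toD (Dg N n k c σ g) d0 (box N n k c σ x j)) : ℕ) / R = j := by
    intro q hq x hx hbox
    have hxJ := hXJ hx
    have hd := T_drop N n k c σ hfree g x R hxJ
      (fun l => q (toD (Dg N n k c σ g) d0 l)) hbox
    unfold Jg at hxJ
    rw [Finset.mem_filter, Finset.mem_range] at hxJ
    obtain ⟨hjk, hj1, hj2, hInt, hgj⟩ := hxJ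
    unfold Intr at hInt
    rw [hgj] at hInt
    have h2 := hq (σ.y x - wst N n c g + 1) (by rw [Finset.mem_Icc]; omega)
      (σ.y x - wst N n c g) (by rw [Finset.mem_Icc]; omega)
    unfold T Am Bm at h2
    exact absurd h2 (Nat.ne_of_lt hd)
  have key := av_const_le R hR (fun q : Dg N n k c σ g → Fin (4 * R) =>
      ∀ t ∈ Finset.Icc 1 (n - 1), ∀ t' ∈ Finset.Icc 1 (n - 1),
        T (Eg N n k c σ g) (Am N n k c σ (Dg N n k c σ g) d0) (Bm N n k c σ (Dg N n k c σ g) d0) q t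
        = T (Eg N n k c σ g) (Am N n k c σ (Dg N n k c σ g) d0) (Bm N n k c σ (Dg N n k c σ g) d0) q t')
    X (fun j i => toD (Dg N n k c σ g) d0 (box N n k c σ j i)) hl hP
  have hpow : (255 / 256 : ℝ) ^ X.card ≤ (255 / 256 : ℝ) ^ ((n - 4) / 27) :=
    pow_le_pow_of_le_one (by norm_num) (by norm_num) hXn
  refine le_trans ?_ hpow
  convert key

theorem group_bound (N n M K k R : ℕ) (hR : 0 < R) (hN : N = n * M) (hk : k = K * N)
    (hn : 5 ≤ n) (c : ℕ → ℕ) (σ : Seq k) (hfree : Free N n k c σ) (g : ℕ) (hg : g < K)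
    (hc : c g < M) (p : ℕ → Fin (4 * R)) (S C : ℕ) (η : ℝ) (hη : 0 ≤ η)
    (hCS : k + K ≤ C * S)
    (hp : ∀ m : ℕ, m ≤ 8 * n → ∀ z : Fin m → ℕ, Function.Injective z → (∀ i, z i < C * S) →
      ∀ a : Fin m → Fin (4 * R),
      (cnt p z a S : ℝ) ≤ S * ((1 / ((4 * R : ℕ) : ℝ)) ^ m + η))
    (hI : (Finset.Icc 1 (n - 1)).Nonempty) :
    ∑ s ∈ range S, (((Finset.Icc 1 (n - 1)).inf' hI
      (fun τ => Tp N n k c σ g (fun l => p (l + s)) τ) : ℕ) : ℝ) ≤
    S * ((((Eg N n k c σ g).card : ℝ) - 1 + (255 / 256 : ℝ) ^ ((n - 4) / 27) +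
      (n * (2 * n) : ℝ) / ((4 * R : ℕ) : ℝ)) / 2 + η * (((4 * R : ℕ) : ℝ) ^ (8 * n) * (2 * n))) := by
  classical
  have hne : NeZero (4 * R) := ⟨by omega⟩
  have hNpos : 0 < N := by
    rw [hN]; exact Nat.mul_pos (by omega) (by omega)
  -- nonemptiness
  have hJ := card_Jg N n M K k hN hk c σ g hg hc (by omega)
  obtain ⟨j, hj⟩ : (Jg N n k c σ g).Nonempty := Finset.card_pos.mp (by omega)
  let d0 : Dg N n k c σ g := ⟨_, box_mem N n k c σ g j hj 0⟩
  let E := Eg N n k c σ g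
  let A := Am N n k c σ (Dg N n k c σ g) d0
  let B := Bm N n k c σ (Dg N n k c σ g) d0
  let F : (Dg N n k c σ g → Fin (4 * R)) → ℝ := fun q => (mn (Finset.Icc 1 (n - 1)) hI E A B q : ℝ)
  have hEcard : E.card ≤ 2 * n := card_Eg N n k c σ g
  have hcardκ : Fintype.card (Dg N n k c σ g) ≤ 8 * n := by
    rw [Fintype.card_coe]; exact card_Dg N n k c σ g
  have h1 : ∀ s, (((Finset.Icc 1 (n - 1)).inf' hI
      (fun τ => Tp N n k c σ g (fun l => p (l + s)) τ) : ℕ) : ℝ) =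
      F (fun d => p ((d : ℕ) + s)) := by
    intro s
    simp only [F, mn]
    congr 2
    funext τ
    unfold Tp T
    congr 1
    apply Finset.filter_congr
    intro e he
    have e1 : ((A τ e : Dg N n k c σ g) : ℕ) = ltr N n c (fun _ => τ) (σ.y e) :=
      toD_val _ _ _ (ltr_mem_Dg1 N n k c _ σ g e he)
    have e2 : ((B τ e : Dg N n k c σ g) : ℕ) = ltr N n c (fun _ => τ) (σ.y (e + 1)) :=
      toD_val _ _ _ (ltr_mem_Dg2 N n k c _ σ g e he)
    change p (ltr N n c (fun _ => τ) (σ.y (e + 1)) + s) ≤ p (ltr N n c (fun _ => τ) (σ.y e) + s) ↔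
      p (((B τ e : Dg N n k c σ g) : ℕ) + s) ≤ p (((A τ e : Dg N n k c σ g) : ℕ) + s)
    rw [e1, e2]
  have h2 := sum_shift_le (κ := Dg N n k c σ g) p S η (fun d => (d : ℕ)) Subtype.val_injective
    (fun z' hz' hzc a => hp _ hcardκ z' hz' (fun i => by
      obtain ⟨d, hd⟩ := hzc i
      rw [hd]
      exact lt_of_lt_of_le (Dg_lt N n K k hk hNpos c σ g _ d.2) hCS) a)
    F (fun a => Nat.cast_nonneg _)
  have h3 : av F ≤ ((E.card : ℝ) - 1 + (255 / 256 : ℝ) ^ ((n - 4) / 27) +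
      (((Finset.Icc 1 (n - 1)).card : ℝ) * E.card) / ((4 * R : ℕ) : ℝ)) / 2 := by
    have hAB : ∀ t ∈ Finset.Icc 1 (n - 1), ∀ e ∈ E, A t e ≠ B t e := by
      intro t _ e he h
      have hek := Finset.mem_range.mp (Finset.mem_filter.mp he).1
      have h4 := toD_inj _ _ _ _ (ltr_mem_Dg1 N n k c _ σ g e he) (ltr_mem_Dg2 N n k c _ σ g e he) h
      have h5 := (ltr_strictMono N n c (fun _ => t)).injective h4
      have h6 := σ.inj (by omega) (by omega) h5
      omega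
    have hcb := const_bound N n M K k R hR hN hk hn c σ hfree g hg hc d0
    refine av_mn_le (Q := 4 * R) (Finset.Icc 1 (n - 1)) hI E A B hAB
      ((255 / 256 : ℝ) ^ ((n - 4) / 27)) ?_
    convert hcb
  have hQpos : (0:ℝ) < ((4 * R : ℕ) : ℝ) := by
    have : 0 < 4 * R := by omega
    exact_mod_cast this
  have h4 : ∑ a, F a ≤ ((4 * R : ℕ) : ℝ) ^ (8 * n) * (2 * n) := by
    calc ∑ a, F a ≤ ∑ _a : (Dg N n k c σ g → Fin (4 * R)), (2 * n : ℝ) := by
          apply Finset.sum_le_sum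
          intro a _
          have h5 : mn (Finset.Icc 1 (n - 1)) hI E A B a ≤ 2 * n := by
            obtain ⟨t, ht⟩ := hI
            refine (Finset.inf'_le _ ht).trans ?_
            exact (Finset.card_filter_le _ _).trans hEcard
          simp only [F]
          exact_mod_cast h5
      _ = ((4 * R : ℕ) : ℝ) ^ (Fintype.card (Dg N n k c σ g)) * (2 * n) := by
          rw [Finset.sum_const, Finset.card_univ, Fintype.card_fun, Fintype.card_fin, nsmul_eq_mul]
          push_cast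
          ring
      _ ≤ ((4 * R : ℕ) : ℝ) ^ (8 * n) * (2 * n) := by
          apply mul_le_mul_of_nonneg_right _ (by positivity)
          apply pow_le_pow_right₀ _ hcardκ
          have : 1 ≤ 4 * R := by omega
          exact_mod_cast this
  have h5 : (((Finset.Icc 1 (n - 1)).card : ℝ) * E.card) / ((4 * R : ℕ) : ℝ) ≤
      (n * (2 * n) : ℝ) / ((4 * R : ℕ) : ℝ) := by
    apply div_le_div_of_nonneg_right _ hQpos.le
    apply mul_le_mul
    · rw [Nat.card_Icc]
      exact_mod_cast (show n - 1 + 1 - 1 ≤ n by omega)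
    · exact_mod_cast hEcard
    · positivity
    · positivity
  calc ∑ s ∈ range S, (((Finset.Icc 1 (n - 1)).inf' hI
      (fun τ => Tp N n k c σ g (fun l => p (l + s)) τ) : ℕ) : ℝ)
      = ∑ s ∈ range S, F (fun d => p ((d : ℕ) + s)) := Finset.sum_congr rfl fun s _ => h1 s
    _ ≤ S * (av F + η * ∑ a, F a) := h2
    _ ≤ _ := by
        apply mul_le_mul_of_nonneg_left _ (Nat.cast_nonneg _)
        apply add_le_add
        · refine h3.trans ?_
          have : (E.card : ℝ) = ((Eg N n k c σ g).card : ℝ) := rfl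
          linarith
        · exact mul_le_mul_of_nonneg_left h4 hη

end Pool.Agent.Helper61.SP
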