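import Pool.Agent.Helper61.SP.Pseudo2

set_option autoImplicit false

namespace Pool.Agent.Helper61.SP

open Finset

/-- transfer from shift averages to uniform averages -/
theorem sum_shift_le {κ : Type*} [Fintype κ] [DecidableEq κ] {Q : ℕ} [NeZero Q] (p : ℕ → Fin Q)
    (S : ℕ) (η : ℝ) (z : κ → ℕ) (hz : Function.Injective z)
    (hp : ∀ z' : Fin (Fintype.card κ) → ℕ, Function.Injective z' → (∀ i, ∃ c, z' i = z c) →
      ∀ a : Fin (Fintype.card κ) → Fin Q,
      (cnt p z' a S : ℝ) ≤ S * ((1 / (Q:ℝ)) ^ (Fintype.card κ) + η))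
    (F : (κ → Fin Q) → ℝ) (hF : ∀ a, 0 ≤ F a) :
    ∑ s ∈ range S, F (fun c => p (z c + s)) ≤ S * (av F + η * ∑ a, F a) := by
  let e := Fintype.equivFin κ
  have h1 : ∑ s ∈ range S, F (fun c => p (z c + s)) =
      ∑ a : κ → Fin Q, F a * (((range S).filter (fun s => (fun c => p (z c + s)) = a)).card : ℝ) := by
    rw [← Finset.sum_fiberwise (range S) (fun s => (fun c => p (z c + s)))]
    apply Finset.sum_congr rfl
    intro a _
    have : ∀ s ∈ (range S).filter (fun s => (fun c => p (z c + s)) = a),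
        F (fun c => p (z c + s)) = F a := by
      intro s hs
      rw [(Finset.mem_filter.mp hs).2]
    rw [Finset.sum_congr rfl this, Finset.sum_const, nsmul_eq_mul]
    ring
  have h2 : ∀ a : κ → Fin Q, (((range S).filter (fun s => (fun c => p (z c + s)) = a)).card : ℝ)
      ≤ S * ((1 / (Q:ℝ)) ^ (Fintype.card κ) + η) := by
    intro a
    have h3 := hp (fun i => z (e.symm i)) (fun i j hij => e.symm.injective (hz hij))
      (fun i => ⟨e.symm i, rfl⟩) (fun i => a (e.symm i))
    refine le_trans (le_of_eq ?_) h3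
    unfold cnt
    congr 2
    apply Finset.filter_congr
    intro s _
    constructor
    · intro h i
      exact congrFun h (e.symm i)
    · intro h
      funext c
      have := h (e c)
      simpa using this
  rw [h1]
  calc ∑ a : κ → Fin Q, F a * (((range S).filter (fun s => (fun c => p (z c + s)) = a)).card : ℝ)
      ≤ ∑ a : κ → Fin Q, F a * (S * ((1 / (Q:ℝ)) ^ (Fintype.card κ) + η)) :=
        Finset.sum_le_sum fun a _ => mul_le_mul_of_nonneg_left (h2 a) (hF a)
    _ = S * (av F + η * ∑ a, F a) := by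
        rw [← Finset.sum_mul]
        unfold av
        rw [Fintype.card_fin]
        have hQ0 : (Q:ℝ) ≠ 0 := Nat.cast_ne_zero.mpr (NeZero.ne Q)
        rw [one_div, inv_pow]
        ring

section edge
variable {ι : Type*} [Fintype ι] [DecidableEq ι] {Q : ℕ} [NeZero Q]

theorem av_eq_edge (a b : ι) (hab : a ≠ b) :
    av (fun q : ι → Fin Q => if q a = q b then (1:ℝ) else 0) = 1 / Q := by
  let z : Fin 2 → ι := ![a, b]
  have hz : Function.Injective z := by
    intro i j hij
    fin_cases i <;> fin_cases j <;> simp_all [z]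
  have h1 : (fun q : ι → Fin Q => if q a = q b then (1:ℝ) else 0) =
      (fun q : ι → Fin Q => (fun r : Fin 2 → Fin Q => if r 0 = r 1 then (1:ℝ) else 0) (q ∘ z)) := by
    funext q
    simp [z]
  rw [h1, av_comp_inj z hz (fun r : Fin 2 → Fin Q => if r 0 = r 1 then (1:ℝ) else 0)]
  unfold av
  rw [← Equiv.sum_comp (finTwoArrowEquiv (Fin Q)).symm, Fintype.sum_prod_type]
  have hQ : (Q:ℝ) ≠ 0 := Nat.cast_ne_zero.mpr (NeZero.ne Q)
  simp [finTwoArrowEquiv]
  field_simp

theorem av_le_edge (a b : ι) (hab : a ≠ b) :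
    av (fun q : ι → Fin Q => if q b ≤ q a then (1:ℝ) else 0) = 1 / 2 + 1 / (2 * Q) := by
  have h1 : av (fun q : ι → Fin Q => if q a ≤ q b then (1:ℝ) else 0) =
      av (fun q : ι → Fin Q => if q b ≤ q a then (1:ℝ) else 0) := by
    have := av_comp_inj (α := Fin Q) (Equiv.swap a b) (Equiv.swap a b).injective
      (fun q : ι → Fin Q => if q b ≤ q a then (1:ℝ) else 0)
    rw [← this]
    congr 1
    funext q
    simp
  have h2 : av (fun q : ι → Fin Q => (if q a ≤ q b then (1:ℝ) else 0) + (if q b ≤ q a then (1:ℝ) else 0))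
      = av (fun q : ι → Fin Q => 1 + (if q a = q b then (1:ℝ) else 0)) := by
    congr 1
    funext q
    rcases lt_trichotomy (q a) (q b) with h | h | h
    · simp [h.le, not_le.mpr h, h.ne]
    · simp [h]
    · simp [h.le, not_le.mpr h, h.ne']
  rw [av_add, av_add, av_const, av_eq_edge a b hab, h1] at h2
  have hQ : (Q:ℝ) ≠ 0 := Nat.cast_ne_zero.mpr (NeZero.ne Q)
  field_simp at h2 ⊢
  linarith

end edge

set_option linter.unusedSectionVars false
section reflection
variable {ι : Type*} [Fintype ι] [DecidableEq ι] {Q : ℕ} [NeZero Q]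

/-- weak descent count of a window for the skip position `t` -/
def T (E : Finset ℕ) (A B : ℕ → ℕ → ι) (q : ι → Fin Q) (t : ℕ) : ℕ :=
  (E.filter (fun e => q (B t e) ≤ q (A t e))).card

def ties (E : Finset ℕ) (A B : ℕ → ℕ → ι) (q : ι → Fin Q) (t : ℕ) : ℕ :=
  (E.filter (fun e => q (B t e) = q (A t e))).card

theorem T_rev (E : Finset ℕ) (A B : ℕ → ℕ → ι) (q : ι → Fin Q) (t : ℕ) :
    T E A B (Fin.revPerm ∘ q) t + T E A B q t = E.card + ties E A B q t := by
  unfold T ties
  have h1 : E.filter (fun e => (Fin.revPerm ∘ q) (B t e) ≤ (Fin.revPerm ∘ q) (A t e))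
      = E.filter (fun e => q (A t e) ≤ q (B t e)) := by
    apply Finset.filter_congr
    intro e _
    simp [Function.comp, Fin.rev_le_rev]
  rw [h1]
  have h2 : (E.filter (fun e => q (A t e) ≤ q (B t e))).card =
      (E.filter (fun e => q (A t e) < q (B t e))).card + (E.filter (fun e => q (B t e) = q (A t e))).card := by
    rw [← Finset.card_union_of_disjoint]
    · congr 1
      ext e
      simp only [Finset.mem_filter, Finset.mem_union]
      constructor
      · rintro ⟨h, h'⟩
        rcases lt_or_eq_of_le h' with h'' | h''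
        · exact Or.inl ⟨h, h''⟩
        · exact Or.inr ⟨h, h''.symm⟩
      · rintro (⟨h, h'⟩ | ⟨h, h'⟩)
        · exact ⟨h, h'.le⟩
        · exact ⟨h, h'.ge⟩
    · rw [Finset.disjoint_filter]
      intro e _ h h'
      exact h.ne h'.symm
  have h3 : (E.filter (fun e => q (A t e) < q (B t e))).card + (E.filter (fun e => q (B t e) ≤ q (A t e))).card
      = E.card := by
    rw [add_comm]
    have := Finset.card_filter_add_card_filter_not (s := E) (fun e => q (B t e) ≤ q (A t e))
    simpa [not_le] using this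
  omega

noncomputable def mn (I : Finset ℕ) (hI : I.Nonempty) (E : Finset ℕ) (A B : ℕ → ℕ → ι)
    (q : ι → Fin Q) : ℕ := I.inf' hI (fun t => T E A B q t)

theorem mn_rev_le (I : Finset ℕ) (hI : I.Nonempty) (E : Finset ℕ) (A B : ℕ → ℕ → ι)
    (q : ι → Fin Q) [Decidable (∀ t ∈ I, ∀ t' ∈ I, T E A B q t = T E A B q t')] :
    (mn I hI E A B (Fin.revPerm ∘ q) : ℝ) + mn I hI E A B q ≤
      (E.card : ℝ) - 1 + (if ∀ t ∈ I, ∀ t' ∈ I, T E A B q t = T E A B q t' then 1 else 0)
        + ∑ t ∈ I, (ties E A B q t : ℝ) := by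
  obtain ⟨t1, ht1, h1⟩ := Finset.exists_mem_eq_inf' hI (fun t => T E A B q t)
  obtain ⟨t2, ht2, h2⟩ := Finset.exists_mem_eq_sup' hI (fun t => T E A B q t)
  have hm : mn I hI E A B (Fin.revPerm ∘ q) ≤ T E A B (Fin.revPerm ∘ q) t2 :=
    Finset.inf'_le _ ht2
  have hr := T_rev E A B q t2
  have hties : (ties E A B q t2 : ℝ) ≤ ∑ t ∈ I, (ties E A B q t : ℝ) :=
    Finset.single_le_sum (f := fun t => (ties E A B q t : ℝ)) (fun t _ => Nat.cast_nonneg _) ht2
  have hmn : mn I hI E A B q = T E A B q t1 := h1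
  rw [hmn]
  have hr' : (T E A B (Fin.revPerm ∘ q) t2 : ℝ) + T E A B q t2 = E.card + ties E A B q t2 := by
    exact_mod_cast hr
  have hm' : (mn I hI E A B (Fin.revPerm ∘ q) : ℝ) ≤ T E A B (Fin.revPerm ∘ q) t2 := by
    exact_mod_cast hm
  have hle : T E A B q t1 ≤ T E A B q t2 := by
    have e1 : T E A B q t1 ≤ T E A B q t2 := by
      rw [← h1]; exact Finset.inf'_le _ ht2
    exact e1
  split_ifs with hc
  · have hle' : (T E A B q t1 : ℝ) ≤ T E A B q t2 := by exact_mod_cast hle
    linarith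
  · have hne : T E A B q t1 ≠ T E A B q t2 := by
      intro heq
      apply hc
      have hall : ∀ t ∈ I, T E A B q t = T E A B q t1 := by
        intro t ht
        apply le_antisymm
        · rw [heq, ← h2]
          exact Finset.le_sup' (fun t => T E A B q t) ht
        · rw [← h1]
          exact Finset.inf'_le _ ht
      intro t ht t' ht'
      rw [hall t ht, hall t' ht']
    have hlt : T E A B q t1 + 1 ≤ T E A B q t2 := by omega
    have hlt' : (T E A B q t1 : ℝ) + 1 ≤ T E A B q t2 := by exact_mod_cast hlt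
    linarith

open Classical in
theorem av_mn_le (I : Finset ℕ) (hI : I.Nonempty) (E : Finset ℕ) (A B : ℕ → ℕ → ι)
    (hAB : ∀ t ∈ I, ∀ e ∈ E, A t e ≠ B t e) (ρ : ℝ)
    (hρ : av (fun q : ι → Fin Q =>
      if ∀ t ∈ I, ∀ t' ∈ I, T E A B q t = T E A B q t' then (1:ℝ) else 0) ≤ ρ) :
    av (fun q : ι → Fin Q => (mn I hI E A B q : ℝ)) ≤
      ((E.card : ℝ) - 1 + ρ + (I.card * E.card : ℝ) / Q) / 2 := by
  have h1 : av (fun q : ι → Fin Q => (mn I hI E A B (Fin.revPerm ∘ q) : ℝ)) =
      av (fun q : ι → Fin Q => (mn I hI E A B q : ℝ)) :=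
    av_comp_perm Fin.revPerm (fun q : ι → Fin Q => (mn I hI E A B q : ℝ))
  have h2 : av (fun q : ι → Fin Q => (mn I hI E A B (Fin.revPerm ∘ q) : ℝ) + mn I hI E A B q) ≤
      av (fun q : ι → Fin Q => (((E.card : ℝ) - 1) +
        (if ∀ t ∈ I, ∀ t' ∈ I, T E A B q t = T E A B q t' then 1 else 0))
        + ∑ t ∈ I, (ties E A B q t : ℝ)) := av_mono fun q => mn_rev_le I hI E A B q
  have h3 : av (fun q : ι → Fin Q => ∑ t ∈ I, (ties E A B q t : ℝ)) = (I.card * E.card : ℝ) / Q := by
    rw [av_sum I (fun t => fun q : ι → Fin Q => (ties E A B q t : ℝ))]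
    have : ∀ t ∈ I, av (fun q : ι → Fin Q => (ties E A B q t : ℝ)) = (E.card : ℝ) / Q := by
      intro t ht
      have e1 : (fun q : ι → Fin Q => (ties E A B q t : ℝ)) =
          (fun q : ι → Fin Q => ∑ e ∈ E, (if q (B t e) = q (A t e) then (1:ℝ) else 0)) := by
        funext q
        unfold ties
        rw [Finset.sum_ite]
        simp
      rw [e1, av_sum E (fun e => fun q : ι → Fin Q => (if q (B t e) = q (A t e) then (1:ℝ) else 0))]
      rw [Finset.sum_congr rfl (fun e he => av_eq_edge (B t e) (A t e) (hAB t ht e he).symm)]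
      rw [Finset.sum_const, nsmul_eq_mul]
      ring
    rw [Finset.sum_congr rfl this, Finset.sum_const, nsmul_eq_mul]
    ring
  rw [av_add, av_add, av_add, av_const, h3, h1] at h2
  linarith

end reflection

end Pool.Agent.Helper61.SP
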