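import Pool.Agent.Helper61.SP.Basic

set_option autoImplicit false

namespace Pool.Agent.Helper61.SP

open Finset

/-- one-variable exponential moment bound -/
theorem mgf_one {α : Type*} [Fintype α] [Nonempty α] (c lam : ℝ) (_hc : 0 ≤ c) (hl : 0 ≤ lam)
    (hcl : lam * c ≤ 1) (g : α → ℝ) (hg : ∀ a b, |g a - g b| ≤ c) :
    (∑ a, Real.exp (lam * g a)) / (Fintype.card α : ℝ) ≤
      Real.exp (lam * ((∑ a, g a) / (Fintype.card α : ℝ)) + lam ^ 2 * c ^ 2) := by
  have hN : (0:ℝ) < (Fintype.card α : ℝ) := by
    have : 0 < Fintype.card α := Fintype.card_pos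
    exact_mod_cast this
  set N : ℝ := (Fintype.card α : ℝ) with hNdef
  set m : ℝ := (∑ a, g a) / N with hm
  have hdev : ∀ a, |g a - m| ≤ c := by
    intro a
    have h1 : g a - m = (∑ b, (g a - g b)) / N := by
      rw [Finset.sum_sub_distrib, Finset.sum_const, Finset.card_univ, nsmul_eq_mul, hm]
      field_simp
      rw [hNdef]
    rw [h1, abs_div, abs_of_pos hN, div_le_iff₀ hN]
    calc |∑ b, (g a - g b)| ≤ ∑ b, |g a - g b| := Finset.abs_sum_le_sum_abs _ _
      _ ≤ ∑ _b : α, c := Finset.sum_le_sum fun b _ => hg a b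
      _ = c * N := by
        rw [Finset.sum_const, Finset.card_univ, nsmul_eq_mul]; ring
  have hpt : ∀ a, Real.exp (lam * (g a - m)) ≤ 1 + lam * (g a - m) + lam ^ 2 * c ^ 2 := by
    intro a
    have h1 : |lam * (g a - m)| ≤ 1 := by
      rw [abs_mul, abs_of_nonneg hl]
      calc lam * |g a - m| ≤ lam * c := mul_le_mul_of_nonneg_left (hdev a) hl
        _ ≤ 1 := hcl
    have h2 := Real.abs_exp_sub_one_sub_id_le h1
    have h3 := (abs_le.mp h2).2
    have h4 : (lam * (g a - m)) ^ 2 ≤ lam ^ 2 * c ^ 2 := by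
      rw [mul_pow]
      apply mul_le_mul_of_nonneg_left _ (sq_nonneg lam)
      rw [← sq_abs]
      exact pow_le_pow_left₀ (abs_nonneg _) (hdev a) 2
    linarith
  have hsum : (∑ a, Real.exp (lam * (g a - m))) / N ≤ 1 + lam ^ 2 * c ^ 2 := by
    rw [div_le_iff₀ hN]
    calc ∑ a, Real.exp (lam * (g a - m)) ≤ ∑ a, (1 + lam * (g a - m) + lam ^ 2 * c ^ 2) :=
          Finset.sum_le_sum fun a _ => hpt a
      _ = N + lam * (∑ a, g a - N * m) + N * (lam ^ 2 * c ^ 2) := by
          rw [Finset.sum_add_distrib, Finset.sum_add_distrib, ← Finset.mul_sum,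
            Finset.sum_sub_distrib]
          simp only [Finset.sum_const, Finset.card_univ, nsmul_eq_mul]
          ring
      _ = (1 + lam ^ 2 * c ^ 2) * N := by
          have : N * m = ∑ a, g a := by rw [hm]; field_simp
          rw [this]; ring
  have hfac : (∑ a, Real.exp (lam * g a)) / N
      = Real.exp (lam * m) * ((∑ a, Real.exp (lam * (g a - m))) / N) := by
    rw [← mul_div_assoc, Finset.mul_sum]
    congr 1
    apply Finset.sum_congr rfl
    intro a _
    rw [← Real.exp_add]; congr 1; ring
  rw [hfac, Real.exp_add]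
  apply mul_le_mul_of_nonneg_left _ (Real.exp_pos _).le
  refine hsum.trans ?_
  have := Real.add_one_le_exp (lam ^ 2 * c ^ 2)
  linarith

theorem av_succ {α : Type*} [Fintype α] [Nonempty α] (L : ℕ) (f : (Fin (L + 1) → α) → ℝ) :
    av f = (∑ a, av (fun q : Fin L → α => f (Fin.cons a q))) / (Fintype.card α : ℝ) := by
  unfold av
  have hN : (0:ℝ) < (Fintype.card α : ℝ) := by
    have : 0 < Fintype.card α := Fintype.card_pos
    exact_mod_cast this
  rw [← Equiv.sum_comp (Fin.consEquiv (fun _ : Fin (L+1) => α)) f, Fintype.sum_prod_type,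
    ← Finset.sum_div, div_div]
  simp only [Fintype.card_fin, pow_succ]
  congr 1

/-- McDiarmid-type exponential moment bound -/
theorem mgf_bound {α : Type*} [Fintype α] [Nonempty α] (c lam : ℝ) (hc : 0 ≤ c) (hl : 0 ≤ lam)
    (hcl : lam * c ≤ 1) : ∀ (L : ℕ) (f : (Fin L → α) → ℝ),
    (∀ (q q' : Fin L → α) (i : Fin L), (∀ j, j ≠ i → q j = q' j) → |f q - f q'| ≤ c) →
    av (fun q => Real.exp (lam * f q)) ≤ Real.exp (lam * av f + L * (lam ^ 2 * c ^ 2))
  | 0, f, _ => by
    unfold av
    simp
  | L + 1, f, hf => by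
    rw [av_succ]
    set g : α → ℝ := fun a => av (fun q : Fin L → α => f (Fin.cons a q)) with hg
    have hgd : ∀ a b, |g a - g b| ≤ c := by
      intro a b
      have h1 : g a - g b = av (fun q : Fin L → α => f (Fin.cons a q) - f (Fin.cons b q)) := by
        rw [av_sub]
      have h2 : ∀ q : Fin L → α, |f (Fin.cons a q) - f (Fin.cons b q)| ≤ c := by
        intro q
        apply hf _ _ 0
        intro j hj
        obtain ⟨j', rfl⟩ := Fin.exists_succ_eq.mpr hj
        simp
      rw [h1, abs_le]
      constructor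
      · rw [← av_const (ι := Fin L) (α := α) (-c)]
        exact av_mono fun q => (abs_le.mp (h2 q)).1
      · rw [← av_const (ι := Fin L) (α := α) c]
        exact av_mono fun q => (abs_le.mp (h2 q)).2
    have hN : (0:ℝ) < (Fintype.card α : ℝ) := by
      have : 0 < Fintype.card α := Fintype.card_pos
      exact_mod_cast this
    have hstep : ∀ a, av (fun q : Fin L → α => Real.exp (lam * f (Fin.cons a q)))
        ≤ Real.exp (L * (lam ^ 2 * c ^ 2)) * Real.exp (lam * g a) := by
      intro a
      refine (mgf_bound c lam hc hl hcl L (fun q => f (Fin.cons a q)) ?_).trans ?_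
      · intro q q' i hi
        apply hf _ _ i.succ
        intro j
        refine Fin.cases ?_ ?_ j
        · intro _; simp
        · intro j' hj'
          simp only [Fin.cons_succ]
          apply hi
          intro h; exact hj' (by rw [h])
      · rw [← Real.exp_add]
        apply le_of_eq; congr 1
        simp only [hg]; ring
    calc (∑ a, av (fun q : Fin L → α => Real.exp (lam * f (Fin.cons a q)))) / (Fintype.card α : ℝ)
        ≤ (∑ a, Real.exp (L * (lam ^ 2 * c ^ 2)) * Real.exp (lam * g a)) / (Fintype.card α : ℝ) := by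
          apply div_le_div_of_nonneg_right (Finset.sum_le_sum fun a _ => hstep a) hN.le
      _ = Real.exp (L * (lam ^ 2 * c ^ 2)) * ((∑ a, Real.exp (lam * g a)) / (Fintype.card α : ℝ)) := by
          rw [← Finset.mul_sum]; ring
      _ ≤ Real.exp (L * (lam ^ 2 * c ^ 2)) *
          Real.exp (lam * ((∑ a, g a) / (Fintype.card α : ℝ)) + lam ^ 2 * c ^ 2) := by
          apply mul_le_mul_of_nonneg_left (mgf_one c lam hc hl hcl g hgd) (Real.exp_pos _).le
      _ = Real.exp (lam * av f + ((L + 1 : ℕ) : ℝ) * (lam ^ 2 * c ^ 2)) := by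
          rw [← Real.exp_add]
          congr 1
          rw [av_succ L f]
          push_cast
          ring

end Pool.Agent.Helper61.SP
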