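import Pool.Agent.Helper61.SP.Mgf

set_option autoImplicit false

namespace Pool.Agent.Helper61.SP

open Finset

/-- number of shifts `s < S` at which the labels at positions `z i + s` equal `a i` -/
noncomputable def cnt {Q m : ℕ} (p : ℕ → Fin Q) (z : Fin m → ℕ) (a : Fin m → Fin Q) (S : ℕ) : ℕ :=
  ((range S).filter (fun s => ∀ i, p (z i + s) = a i)).card

/-- extension of a labeling of an initial segment -/
def ext {Q L : ℕ} [NeZero Q] (q : Fin L → Fin Q) : ℕ → Fin Q :=
  fun l => if h : l < L then q ⟨l, h⟩ else 0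

theorem ext_of_lt {Q L : ℕ} [NeZero Q] (q : Fin L → Fin Q) {l : ℕ} (h : l < L) :
    ext q l = q ⟨l, h⟩ := by simp [ext, h]

theorem cnt_eq_sum {Q m : ℕ} (p : ℕ → Fin Q) (z : Fin m → ℕ) (a : Fin m → Fin Q) (S : ℕ) :
    (cnt p z a S : ℝ) = ∑ s ∈ range S, (if ∀ i, p (z i + s) = a i then (1:ℝ) else 0) := by
  unfold cnt
  rw [Finset.sum_ite]
  simp

theorem cnt_lip {Q m L : ℕ} [NeZero Q] (z : Fin m → ℕ) (a : Fin m → Fin Q) (S : ℕ)
    (q q' : Fin L → Fin Q) (l : Fin L) (h : ∀ j, j ≠ l → q j = q' j) :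
    |(cnt (ext q) z a S : ℝ) - (cnt (ext q') z a S : ℝ)| ≤ m := by
  rw [cnt_eq_sum, cnt_eq_sum, ← Finset.sum_sub_distrib]
  have hext : ∀ x : ℕ, x ≠ l → ext q x = ext q' x := by
    intro x hx
    by_cases hL : x < L
    · rw [ext_of_lt q hL, ext_of_lt q' hL]
      apply h
      intro he
      exact hx (by rw [← he])
    · simp [ext, hL]
  calc |∑ s ∈ range S, ((if ∀ i, ext q (z i + s) = a i then (1:ℝ) else 0)
          - (if ∀ i, ext q' (z i + s) = a i then (1:ℝ) else 0))|
      ≤ ∑ s ∈ range S, |((if ∀ i, ext q (z i + s) = a i then (1:ℝ) else 0)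
          - (if ∀ i, ext q' (z i + s) = a i then (1:ℝ) else 0))| := Finset.abs_sum_le_sum_abs _ _
    _ ≤ ∑ s ∈ range S, ∑ i : Fin m, (if z i + s = (l:ℕ) then (1:ℝ) else 0) := by
        apply Finset.sum_le_sum
        intro s _
        by_cases hs : ∃ i, z i + s = (l:ℕ)
        · obtain ⟨i, hi⟩ := hs
          have h1 : (1:ℝ) ≤ ∑ i : Fin m, (if z i + s = (l:ℕ) then (1:ℝ) else 0) := by
            have h2 := Finset.single_le_sum (f := fun i : Fin m => if z i + s = (l:ℕ) then (1:ℝ) else 0)
              (fun j _ => by split_ifs <;> norm_num) (Finset.mem_univ i)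
            simpa [hi] using h2
          refine le_trans ?_ h1
          split_ifs <;> norm_num
        · push Not at hs
          have h1 : ∀ i, ext q (z i + s) = ext q' (z i + s) := fun i => hext _ (hs i)
          simp only [h1, sub_self, abs_zero]
          apply Finset.sum_nonneg
          intro i _
          split_ifs <;> norm_num
    _ = ∑ i : Fin m, ∑ s ∈ range S, (if z i + s = (l:ℕ) then (1:ℝ) else 0) := Finset.sum_comm
    _ ≤ ∑ i : Fin m, (1:ℝ) := by
        apply Finset.sum_le_sum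
        intro i _
        rw [Finset.sum_ite, Finset.sum_const_zero, add_zero, Finset.sum_const, nsmul_eq_mul, mul_one]
        have : ((range S).filter (fun s => z i + s = (l:ℕ))).card ≤ 1 := by
          apply Finset.card_le_one.mpr
          intro x hx y hy
          simp only [Finset.mem_filter] at hx hy
          omega
        exact_mod_cast this
    _ = m := by simp

theorem av_cnt {Q m L : ℕ} [NeZero Q] (z : Fin m → ℕ) (hz : Function.Injective z)
    (a : Fin m → Fin Q) (S L0 : ℕ) (hzL : ∀ i, z i < L0) (hL : L0 + S ≤ L) :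
    av (fun q : Fin L → Fin Q => (cnt (ext q) z a S : ℝ)) = S * (1 / (Q:ℝ)) ^ m := by
  have h1 : (fun q : Fin L → Fin Q => (cnt (ext q) z a S : ℝ)) =
      (fun q : Fin L → Fin Q => ∑ s ∈ range S,
        (if ∀ i, ext q (z i + s) = a i then (1:ℝ) else 0)) := by
    funext q; exact cnt_eq_sum _ _ _ _
  rw [h1, av_sum (range S) (fun s => fun q : Fin L → Fin Q =>
    (if ∀ i, ext q (z i + s) = a i then (1:ℝ) else 0))]
  have h2 : ∀ s ∈ range S, av (fun q : Fin L → Fin Q =>
      (if ∀ i, ext q (z i + s) = a i then (1:ℝ) else 0)) = (1 / (Q:ℝ)) ^ m := by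
    intro s hs
    have hs' : s < S := Finset.mem_range.mp hs
    have hlt : ∀ i, z i + s < L := fun i => by have := hzL i; omega
    let zs : Fin m → Fin L := fun i => ⟨z i + s, hlt i⟩
    have hzs : Function.Injective zs := by
      intro i j hij
      apply hz
      have := congrArg Fin.val hij
      simp only [zs] at this
      omega
    have h3 : (fun q : Fin L → Fin Q => (if ∀ i, ext q (z i + s) = a i then (1:ℝ) else 0))
        = (fun q : Fin L → Fin Q => (fun r : Fin m → Fin Q =>
            if ∀ i, r i = a i then (1:ℝ) else 0) (q ∘ zs)) := by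
      funext q
      simp only [Function.comp]
      congr 1
      apply propext
      apply forall_congr'
      intro i
      rw [ext_of_lt q (hlt i)]
    rw [h3, av_comp_inj zs hzs (fun r : Fin m → Fin Q => if ∀ i, r i = a i then (1:ℝ) else 0)]
    unfold av
    have h4 : (∑ r : Fin m → Fin Q, (if ∀ i, r i = a i then (1:ℝ) else 0)) = 1 := by
      have : ∀ r : Fin m → Fin Q, (if ∀ i, r i = a i then (1:ℝ) else 0) = if r = a then 1 else 0 := by
        intro r
        congr 1
        apply propext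
        exact funext_iff.symm
      simp only [this]
      simp
    rw [h4]
    simp
  rw [Finset.sum_congr rfl h2]
  simp

theorem bad_bound {Q m L : ℕ} [NeZero Q] (z : Fin m → ℕ) (hz : Function.Injective z)
    (a : Fin m → Fin Q) (S L0 : ℕ) (hzL : ∀ i, z i < L0) (hL : L0 + S ≤ L)
    (lam η : ℝ) (hl : 0 ≤ lam) (hlm : lam * m ≤ 1) :
    av (fun q : Fin L → Fin Q =>
      if (S:ℝ) * ((1 / (Q:ℝ)) ^ m + η) < (cnt (ext q) z a S : ℝ) then (1:ℝ) else 0) ≤
      Real.exp (L * (lam ^ 2 * (m:ℝ) ^ 2) - lam * (S * η)) := by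
  have h1 := mgf_bound (α := Fin Q) (m : ℝ) lam (Nat.cast_nonneg m) hl hlm L
    (fun q => (cnt (ext q) z a S : ℝ)) (fun q q' i h => cnt_lip z a S q q' i h)
  rw [av_cnt z hz a S L0 hzL hL] at h1
  set B : ℝ := (S:ℝ) * ((1 / (Q:ℝ)) ^ m + η) with hB
  have h2 : av (fun q : Fin L → Fin Q =>
      if B < (cnt (ext q) z a S : ℝ) then (1:ℝ) else 0) ≤
      av (fun q : Fin L → Fin Q => Real.exp (-(lam * B)) *
        Real.exp (lam * (cnt (ext q) z a S : ℝ))) := by
    apply av_mono
    intro q
    rw [← Real.exp_add]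
    split_ifs with h
    · rw [← Real.exp_zero]
      apply Real.exp_le_exp.mpr
      nlinarith
    · exact (Real.exp_pos _).le
  refine h2.trans ?_
  rw [av_mul_left]
  calc Real.exp (-(lam * B)) * av (fun q : Fin L → Fin Q =>
        Real.exp (lam * (cnt (ext q) z a S : ℝ)))
      ≤ Real.exp (-(lam * B)) * Real.exp (lam * (S * (1 / (Q:ℝ)) ^ m) +
          L * (lam ^ 2 * (m:ℝ) ^ 2)) := mul_le_mul_of_nonneg_left h1 (Real.exp_pos _).le
    _ = Real.exp (L * (lam ^ 2 * (m:ℝ) ^ 2) - lam * (S * η)) := by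
        rw [← Real.exp_add]; congr 1; rw [hB]; ring

end Pool.Agent.Helper61.SP
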