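import Pool.Agent.Helper61.SP.Pseudo

set_option autoImplicit false

namespace Pool.Agent.Helper61.SP

open Finset Filter Topology

theorem exists_small (m0 C Q : ℕ) (β : ℝ) (hβ : 0 < β) :
    ∃ S0 : ℕ, ∀ S : ℕ, S0 ≤ S → ((m0:ℝ) + 1) * ((((C + 1) * S * Q : ℕ) : ℝ)) ^ m0 *
      Real.exp (-(β * S)) < 1 := by
  have h1 := Real.tendsto_pow_mul_exp_neg_atTop_nhds_zero m0
  have h2 : Tendsto (fun S : ℕ => β * (S:ℝ)) atTop atTop :=
    Tendsto.const_mul_atTop hβ tendsto_natCast_atTop_atTop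
  have h3 := (h1.comp h2).const_mul (((m0:ℝ) + 1) * (((C + 1 : ℕ):ℝ) * Q / β) ^ m0)
  rw [mul_zero] at h3
  have h4 := (h3.eventually_lt_const (show (0:ℝ) < 1 by norm_num))
  obtain ⟨S0, hS0⟩ := eventually_atTop.mp h4
  refine ⟨S0, fun S hS => ?_⟩
  have h5 := hS0 S hS
  simp only [Function.comp] at h5
  refine lt_of_le_of_lt (le_of_eq ?_) h5
  push_cast
  rw [mul_pow, mul_pow, mul_pow, div_pow, mul_pow]
  field_simp

theorem exists_of_av_lt_one {ι α : Type*} [Fintype ι] [DecidableEq ι] [Fintype α] [Nonempty α]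
    (f : (ι → α) → ℝ) (h : av f < 1) : ∃ q, f q < 1 := by
  by_contra hc
  push Not at hc
  have h1 : av (fun _ : ι → α => (1:ℝ)) ≤ av f := av_mono hc
  rw [av_const] at h1
  linarith

theorem exists_pseudo (m0 C Q : ℕ) [NeZero Q] (η : ℝ) (hη : 0 < η) :
    ∃ S0 : ℕ, ∀ S : ℕ, S0 ≤ S → ∃ p : ℕ → Fin Q, ∀ m : ℕ, m ≤ m0 → ∀ z : Fin m → ℕ,
      Function.Injective z → (∀ i, z i < C * S) → ∀ a : Fin m → Fin Q,
      (cnt p z a S : ℝ) ≤ S * ((1 / (Q:ℝ)) ^ m + η) := by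
  set η1 : ℝ := min η 1 with hη1
  have hη1p : 0 < η1 := lt_min hη one_pos
  have hη1le : η1 ≤ η := min_le_left _ _
  have hη1le1 : η1 ≤ 1 := min_le_right _ _
  set lam : ℝ := η1 / (2 * ((C:ℝ) + 1) * ((m0:ℝ) + 1) ^ 2) with hlam
  have hden : (0:ℝ) < 2 * ((C:ℝ) + 1) * ((m0:ℝ) + 1) ^ 2 := by positivity
  have hlamp : 0 < lam := div_pos hη1p hden
  obtain ⟨S0, hS0⟩ := exists_small m0 C Q (lam * η1 / 2) (by positivity)
  refine ⟨max S0 1, fun S hS => ?_⟩
  have hS1 : S0 ≤ S := le_trans (le_max_left _ _) hS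
  have hSpos : 1 ≤ S := le_trans (le_max_right _ _) hS
  have hQ : 1 ≤ Q := Nat.one_le_iff_ne_zero.mpr (NeZero.ne Q)
  have hfin := hS0 S hS1
  set L : ℕ := (C + 1) * S with hL
  -- index type
  let I := Σ m : Fin (m0 + 1), (Fin m → Fin (C * S)) × (Fin m → Fin Q)
  classical
  let bad : I → (Fin L → Fin Q) → ℝ := fun x q =>
    if Function.Injective x.2.1 then
      (if (S:ℝ) * ((1 / (Q:ℝ)) ^ (x.1:ℕ) + η) < (cnt (ext q) (fun i => (x.2.1 i : ℕ)) x.2.2 S : ℝ)
        then (1:ℝ) else 0)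
    else 0
  have hbad_nonneg : ∀ x q, 0 ≤ bad x q := by
    intro x q
    simp only [bad]
    split_ifs <;> norm_num
  have hbad : ∀ x : I, av (bad x) ≤ Real.exp (-(lam * η1 / 2 * S)) := by
    rintro ⟨m, z, a⟩
    by_cases hinj : Function.Injective z
    · have hm : ((m:ℕ):ℝ) ≤ m0 := by
        have := m.2
        exact_mod_cast Nat.lt_succ_iff.mp this
      have hm0 : (0:ℝ) ≤ ((m:ℕ):ℝ) := Nat.cast_nonneg _
      have hlm : lam * ((m:ℕ):ℝ) ≤ 1 := by
        rw [hlam, div_mul_eq_mul_div, div_le_one hden]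
        have hC : (0:ℝ) ≤ (C:ℝ) := Nat.cast_nonneg _
        nlinarith [mul_nonneg hη1p.le hm0, mul_nonneg hC (sq_nonneg ((m0:ℝ) + 1))]
      have h1 := bad_bound (L := L) (fun i => ((z i : Fin (C * S)) : ℕ))
        (fun i j hij => hinj (Fin.ext hij)) a S (C * S) (fun i => (z i).2)
        (by rw [hL]; ring_nf; exact le_refl _) lam η hlamp.le hlm
      have h2 : av (bad ⟨m, z, a⟩) = av (fun q : Fin L → Fin Q =>
          if (S:ℝ) * ((1 / (Q:ℝ)) ^ (m:ℕ) + η) < (cnt (ext q) (fun i => ((z i : Fin (C * S)) : ℕ)) a S : ℝ)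
          then (1:ℝ) else 0) := by
        congr 1
        funext q
        simp only [bad, hinj, if_true]
      rw [h2]
      refine h1.trans (Real.exp_le_exp.mpr ?_)
      have hLr : (L:ℝ) = ((C:ℝ) + 1) * S := by rw [hL]; push_cast; ring
      rw [hLr]
      have hS' : (0:ℝ) ≤ (S:ℝ) := Nat.cast_nonneg _
      have hmsq : ((m:ℕ):ℝ) ^ 2 ≤ ((m0:ℝ) + 1) ^ 2 := by
        apply pow_le_pow_left₀ hm0; linarith
      have key : ((C:ℝ) + 1) * S * (lam ^ 2 * ((m:ℕ):ℝ) ^ 2) ≤ lam * S * (η1 / 2) := by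
        have e1 : ((C:ℝ) + 1) * S * (lam ^ 2 * ((m:ℕ):ℝ) ^ 2) ≤
            ((C:ℝ) + 1) * S * (lam ^ 2 * ((m0:ℝ) + 1) ^ 2) := by
          apply mul_le_mul_of_nonneg_left _ (by positivity)
          apply mul_le_mul_of_nonneg_left hmsq (by positivity)
        have e2 : ((C:ℝ) + 1) * S * (lam ^ 2 * ((m0:ℝ) + 1) ^ 2) = lam * S * (η1 / 2) := by
          have : lam * (2 * ((C:ℝ) + 1) * ((m0:ℝ) + 1) ^ 2) = η1 := by
            rw [hlam]; field_simp
          calc ((C:ℝ) + 1) * S * (lam ^ 2 * ((m0:ℝ) + 1) ^ 2)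
              = lam * S * ((lam * (2 * ((C:ℝ) + 1) * ((m0:ℝ) + 1) ^ 2)) / 2) := by ring
            _ = lam * S * (η1 / 2) := by rw [this]
        linarith
      have key2 : lam * ((S:ℝ) * η1) ≤ lam * ((S:ℝ) * η) := by
        apply mul_le_mul_of_nonneg_left _ hlamp.le
        apply mul_le_mul_of_nonneg_left hη1le hS'
      nlinarith
    · have h2 : av (bad ⟨m, z, a⟩) = av (fun _ : Fin L → Fin Q => (0:ℝ)) := by
        congr 1
        funext q
        simp only [bad, hinj, if_false]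
      rw [h2, av_const]
      exact (Real.exp_pos _).le
  have hcardI : (Fintype.card I : ℝ) ≤ ((m0:ℝ) + 1) * ((((C + 1) * S * Q : ℕ) : ℝ)) ^ m0 := by
    have h1 : Fintype.card I = ∑ m : Fin (m0 + 1), (C * S) ^ (m:ℕ) * Q ^ (m:ℕ) := by
      simp only [I, Fintype.card_sigma, Fintype.card_prod, Fintype.card_fun, Fintype.card_fin]
    have h2 : Fintype.card I ≤ (m0 + 1) * ((C + 1) * S * Q) ^ m0 := by
      rw [h1]
      calc ∑ m : Fin (m0 + 1), (C * S) ^ (m:ℕ) * Q ^ (m:ℕ)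
          ≤ ∑ _m : Fin (m0 + 1), ((C + 1) * S * Q) ^ m0 := by
            apply Finset.sum_le_sum
            intro m _
            rw [← mul_pow]
            have hb : C * S * Q ≤ (C + 1) * S * Q := by
              apply Nat.mul_le_mul_right
              apply Nat.mul_le_mul_right
              omega
            have hpos : 1 ≤ (C + 1) * S * Q := by
              have : 1 ≤ (C + 1) * S := Nat.mul_pos (by omega) hSpos
              exact Nat.mul_pos this hQ
            calc (C * S * Q) ^ (m:ℕ) ≤ ((C + 1) * S * Q) ^ (m:ℕ) := Nat.pow_le_pow_left hb _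
              _ ≤ ((C + 1) * S * Q) ^ m0 := Nat.pow_le_pow_right hpos (Nat.lt_succ_iff.mp m.2)
        _ = (m0 + 1) * ((C + 1) * S * Q) ^ m0 := by simp
    calc (Fintype.card I : ℝ) ≤ (((m0 + 1) * ((C + 1) * S * Q) ^ m0 : ℕ) : ℝ) := by exact_mod_cast h2
      _ = _ := by push_cast; ring
  have htot : av (fun q : Fin L → Fin Q => ∑ x : I, bad x q) < 1 := by
    rw [av_sum]
    calc ∑ x : I, av (bad x) ≤ ∑ _x : I, Real.exp (-(lam * η1 / 2 * S)) :=
          Finset.sum_le_sum fun x _ => hbad x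
      _ = (Fintype.card I : ℝ) * Real.exp (-(lam * η1 / 2 * S)) := by
          rw [Finset.sum_const, Finset.card_univ, nsmul_eq_mul]
      _ ≤ ((m0:ℝ) + 1) * ((((C + 1) * S * Q : ℕ) : ℝ)) ^ m0 * Real.exp (-(lam * η1 / 2 * S)) :=
          mul_le_mul_of_nonneg_right hcardI (Real.exp_pos _).le
      _ < 1 := hfin
  obtain ⟨q, hq⟩ := exists_of_av_lt_one _ htot
  refine ⟨ext q, ?_⟩
  intro m hm z hz hzlt a
  by_contra hcon
  push Not at hcon
  let x : I := ⟨⟨m, Nat.lt_succ_of_le hm⟩, (fun i => ⟨z i, hzlt i⟩, a)⟩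
  have hx1 : bad x q = 1 := by
    have hinj : Function.Injective (fun i : Fin m => (⟨z i, hzlt i⟩ : Fin (C * S))) := by
      intro i j hij
      apply hz
      exact congrArg Fin.val hij
    simp only [bad, x]
    rw [if_pos hinj, if_pos hcon]
  have hx2 : bad x q ≤ ∑ x : I, bad x q :=
    Finset.single_le_sum (f := fun x => bad x q) (fun y _ => hbad_nonneg y q) (Finset.mem_univ x)
  linarith

end Pool.Agent.Helper61.SP
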