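import Pool.Agent.Helper61.SP.Choice

set_option autoImplicit false

namespace Pool.Agent.Helper61.SP

open Finset

/-- untouched edges -/
def Ue (N n k : ℕ) (c : ℕ → ℕ) (σ : Seq k) : Finset ℕ :=
  (range (k - 1)).filter (fun e => ¬ Intr N n c (σ.y e) ∧ ¬ Intr N n c (σ.y (e + 1)))

theorem Eg_disj (N n k : ℕ) (c : ℕ → ℕ) (σ : Seq k) (hfree : Free N n k c σ) (g g' : ℕ)
    (h : g ≠ g') : Disjoint (Eg N n k c σ g) (Eg N n k c σ g') := by
  rw [Finset.disjoint_left]
  intro e he he'
  unfold Eg at he he'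
  rw [Finset.mem_filter, Finset.mem_range] at he he'
  obtain ⟨hk, h1⟩ := he
  obtain ⟨_, h2⟩ := he'
  rcases h1 with h1 | h1 <;> rcases h2 with h2 | h2
  · exact h (h1.2.symm.trans h2.2)
  · have := hfree e (by omega) h1.1 h2.1
    exact h (h1.2.symm.trans (this.trans h2.2))
  · have := hfree e (by omega) h2.1 h1.1
    exact h (h1.2.symm.trans (this.symm.trans h2.2))
  · exact h (h1.2.symm.trans h2.2)

theorem sum_card_le (N n K k : ℕ) (c : ℕ → ℕ) (σ : Seq k) (hfree : Free N n k c σ) :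
    (Ue N n k c σ).card + ∑ g ∈ range K, (Eg N n k c σ g).card ≤ k - 1 := by
  rw [← Finset.card_biUnion (fun g _ g' _ h => Eg_disj N n k c σ hfree g g' h),
    ← Finset.card_union_of_disjoint]
  · calc (Ue N n k c σ ∪ (range K).biUnion (fun g => Eg N n k c σ g)).card
        ≤ (range (k - 1)).card := by
          apply Finset.card_le_card
          apply Finset.union_subset (Finset.filter_subset _ _)
          rw [Finset.biUnion_subset]
          intro g _
          exact Finset.filter_subset _ _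
      _ = k - 1 := Finset.card_range _
  · rw [Finset.disjoint_left]
    intro e he he'
    unfold Ue at he
    rw [Finset.mem_filter] at he
    rw [Finset.mem_biUnion] at he'
    obtain ⟨g, _, hg⟩ := he'
    unfold Eg at hg
    rw [Finset.mem_filter] at hg
    rcases hg.2 with h | h
    · exact he.2.1 h.1
    · exact he.2.2 h.1

/-- total number of weak descents -/
def Wd {Q : ℕ} (N n k : ℕ) (c t : ℕ → ℕ) (σ : Seq k) (p : ℕ → Fin Q) : ℕ :=
  ((range (k - 1)).filter (fun e => p (ltr N n c t (σ.y (e + 1))) ≤ p (ltr N n c t (σ.y e)))).card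

theorem Wd_le {Q : ℕ} (N n K k : ℕ) (hk : k = K * N) (hN : 0 < N) (c t : ℕ → ℕ) (σ : Seq k)
    (hfree : Free N n k c σ)
    (ht : ∀ g, 1 ≤ t g ∧ t g + 1 ≤ n) (p : ℕ → Fin Q) :
    Wd N n k c t σ p ≤ ((Ue N n k c σ).filter (fun e =>
      p (ltr N n c (fun _ => 1) (σ.y (e + 1))) ≤ p (ltr N n c (fun _ => 1) (σ.y e)))).card +
      ∑ g ∈ range K, Tp N n k c σ g p (t g) := by
  have hn2 : 2 ≤ n := by have := ht 0; omega
  have hsub : (range (k - 1)).filter (fun e => p (ltr N n c t (σ.y (e + 1))) ≤ p (ltr N n c t (σ.y e)))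
      ⊆ ((Ue N n k c σ).filter (fun e =>
      p (ltr N n c (fun _ => 1) (σ.y (e + 1))) ≤ p (ltr N n c (fun _ => 1) (σ.y e)))) ∪
      (range K).biUnion (fun g => (Eg N n k c σ g).filter (fun e =>
        p (ltr N n c (fun _ => t g) (σ.y (e + 1))) ≤ p (ltr N n c (fun _ => t g) (σ.y e)))) := by
    intro e he
    rw [Finset.mem_filter] at he
    obtain ⟨hek, hle⟩ := he
    have hek' := Finset.mem_range.mp hek
    rw [Finset.mem_union]
    -- general statement for edges of a group
    have grp : ∀ g, g < K → e ∈ Eg N n k c σ g →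
        e ∈ (range K).biUnion (fun g => (Eg N n k c σ g).filter (fun e =>
        p (ltr N n c (fun _ => t g) (σ.y (e + 1))) ≤ p (ltr N n c (fun _ => t g) (σ.y e)))) := by
      intro g hg heg
      rw [Finset.mem_biUnion]
      refine ⟨g, Finset.mem_range.mpr hg, ?_⟩
      rw [Finset.mem_filter]
      refine ⟨heg, ?_⟩
      have hval : ∀ i, (i = e ∨ i = e + 1) →
          ltr N n c (fun _ => t g) (σ.y i) = ltr N n c t (σ.y i) := by
        intro i hi
        by_cases hd : σ.y i / N = g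
        · unfold ltr; rw [hd]
        · exact ltr_fixed N n c _ _ _ (endpoint_fixed N n k c σ hfree g e i heg hi hd)
            (ht g).1 (ht g).2 (ht _).1 (ht _).2
      rw [hval e (Or.inl rfl), hval (e + 1) (Or.inr rfl)]
      exact hle
    by_cases h1 : Intr N n c (σ.y e)
    · right
      apply grp (σ.y e / N)
      · rw [Nat.div_lt_iff_lt_mul hN]
        have := σ.ylt e (by omega)
        omega
      · unfold Eg
        rw [Finset.mem_filter]
        exact ⟨hek, Or.inl ⟨h1, rfl⟩⟩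
    · by_cases h2 : Intr N n c (σ.y (e + 1))
      · right
        apply grp (σ.y (e + 1) / N)
        · rw [Nat.div_lt_iff_lt_mul hN]
          have := σ.ylt (e + 1) (by omega)
          omega
        · unfold Eg
          rw [Finset.mem_filter]
          exact ⟨hek, Or.inr ⟨h2, rfl⟩⟩
      · left
        rw [Finset.mem_filter]
        refine ⟨?_, ?_⟩
        · unfold Ue
          rw [Finset.mem_filter]
          exact ⟨hek, h1, h2⟩
        · have e1 := ltr_fixed N n c (fun _ => 1) t _ h1 le_rfl hn2 (ht _).1 (ht _).2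
          have e2 := ltr_fixed N n c (fun _ => 1) t _ h2 le_rfl hn2 (ht _).1 (ht _).2
          rw [e1, e2]
          exact hle
  unfold Wd
  refine (Finset.card_le_card hsub).trans ((Finset.card_union_le _ _).trans ?_)
  apply Nat.add_le_add_left
  refine Finset.card_biUnion_le.trans ?_
  exact Finset.sum_le_sum fun g _ => le_rfl

theorem edge_bound (Q S C L : ℕ) [NeZero Q] (p : ℕ → Fin Q) (η : ℝ) (hη : 0 ≤ η)
    (hCS : L ≤ C * S) (m0 : ℕ) (hm0 : 2 ≤ m0)
    (hp : ∀ m : ℕ, m ≤ m0 → ∀ z : Fin m → ℕ, Function.Injective z → (∀ i, z i < C * S) →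
      ∀ a : Fin m → Fin Q,
      (cnt p z a S : ℝ) ≤ S * ((1 / (Q : ℝ)) ^ m + η))
    (a b : ℕ) (hab : a ≠ b) (ha : a < L) (hb : b < L) :
    ∑ s ∈ range S, (if p (b + s) ≤ p (a + s) then (1:ℝ) else 0) ≤
      S * (1 / 2 + 1 / (2 * Q) + η * (Q:ℝ) ^ 2) := by
  have h1 := sum_shift_le (κ := Fin 2) p S η (fun i => if i = 0 then a else b)
    (by
      intro i j hij
      fin_cases i <;> fin_cases j <;> simp_all)
    (fun z' hz' hzc a' => by
      have := hp (Fintype.card (Fin 2)) (by simpa using hm0) z' hz' (fun i => by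
        obtain ⟨d, hd⟩ := hzc i
        rw [hd]
        split_ifs <;> omega) a'
      exact this)
    (fun r => if r 1 ≤ r 0 then (1:ℝ) else 0)
    (fun r => by split_ifs <;> norm_num)
  simp only [if_true, one_ne_zero, if_false] at h1
  refine h1.trans ?_
  apply mul_le_mul_of_nonneg_left _ (Nat.cast_nonneg _)
  rw [av_le_edge (0 : Fin 2) 1 (by norm_num)]
  have h2 : ∑ r : Fin 2 → Fin Q, (if r 1 ≤ r 0 then (1:ℝ) else 0) ≤ (Q:ℝ) ^ 2 := by
    calc ∑ r : Fin 2 → Fin Q, (if r 1 ≤ r 0 then (1:ℝ) else 0)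
        ≤ ∑ _r : Fin 2 → Fin Q, (1:ℝ) := Finset.sum_le_sum fun r _ => by split_ifs <;> norm_num
      _ = (Q:ℝ) ^ 2 := by simp
  have := mul_le_mul_of_nonneg_left h2 hη
  linarith

/-- The main bound: for a pseudorandom labeling every sequence has a good embedding. -/
theorem main_bound (N n K k R S C : ℕ) (hR : 0 < R) (hN : N = n * (8 * n)) (hk : k = K * N)
    (hS : 0 < S)
    (hn : 5 ≤ n) (η : ℝ) (hη : 0 ≤ η) (hCS : k + K ≤ C * S) (p : ℕ → Fin (4 * R))
    (hp : ∀ m : ℕ, m ≤ 8 * n → ∀ z : Fin m → ℕ, Function.Injective z → (∀ i, z i < C * S) →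
      ∀ a : Fin m → Fin (4 * R),
      (cnt p z a S : ℝ) ≤ S * ((1 / ((4 * R : ℕ) : ℝ)) ^ m + η))
    (σ : Seq k) :
    ∃ φ : ℕ → ℕ, StrictMono φ ∧ (∀ v, v < k → φ v < k + K + S) ∧
      ((((range (k - 1)).filter (fun e => p (φ (σ.y (e + 1))) ≤ p (φ (σ.y e)))).card : ℕ) : ℝ) ≤
      (k : ℝ) * (1 / 2 + 1 / (2 * ((4 * R : ℕ) : ℝ)) + η * ((4 * R : ℕ) : ℝ) ^ 2) +
      K * (-(1 / 2) + (255 / 256 : ℝ) ^ ((n - 4) / 27) / 2 + (n : ℝ) ^ 2 / ((4 * R : ℕ) : ℝ)
        + η * (((4 * R : ℕ) : ℝ) ^ (8 * n) * (2 * n))) := by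
  have hne : NeZero (4 * R) := ⟨by omega⟩
  have hNpos : 0 < N := by
    rw [hN]; exact Nat.mul_pos (by omega) (by omega)
  obtain ⟨c, hcM, hfree⟩ := exists_choice N n (8 * n) K k hN hk (by omega) le_rfl σ
  have hI : (Finset.Icc 1 (n - 1)).Nonempty := ⟨1, by rw [Finset.mem_Icc]; omega⟩
  -- the optimal skip positions for each shift
  have hopt : ∀ s g, ∃ τ ∈ Finset.Icc 1 (n - 1), (Finset.Icc 1 (n - 1)).inf' hI
      (fun τ => Tp N n k c σ g (fun l => p (l + s)) τ) = Tp N n k c σ g (fun l => p (l + s)) τ :=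
    fun s g => Finset.exists_mem_eq_inf' hI _
  choose t ht1 ht2 using hopt
  set e1 : ℝ := 1 / 2 + 1 / (2 * ((4 * R : ℕ) : ℝ)) + η * ((4 * R : ℕ) : ℝ) ^ 2 with he1
  set r0 : ℝ := (255 / 256 : ℝ) ^ ((n - 4) / 27) with hr0
  set Q : ℝ := ((4 * R : ℕ) : ℝ) with hQ
  have hQpos : (0:ℝ) < Q := by
    rw [hQ]
    have : 0 < 4 * R := by omega
    exact_mod_cast this
  -- sum over the shifts
  have hsum : ∑ s ∈ range S, ((Wd N n k c (t s) σ (fun l => p (l + s)) : ℕ) : ℝ) ≤
      ∑ s ∈ range S, ((k : ℝ) * e1 +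
      K * (-(1 / 2) + r0 / 2 + (n : ℝ) ^ 2 / Q + η * (Q ^ (8 * n) * (2 * n)))) := by
    have hA : ∀ s ∈ range S, ((Wd N n k c (t s) σ (fun l => p (l + s)) : ℕ) : ℝ) ≤
        (∑ e ∈ Ue N n k c σ, (if p (ltr N n c (fun _ => 1) (σ.y (e + 1)) + s) ≤
          p (ltr N n c (fun _ => 1) (σ.y e) + s) then (1:ℝ) else 0)) +
        ∑ g ∈ range K, (((Finset.Icc 1 (n - 1)).inf' hI
          (fun τ => Tp N n k c σ g (fun l => p (l + s)) τ) : ℕ) : ℝ) := by
      intro s _
      have h := Wd_le N n K k hk hNpos c (t s) σ hfree (fun g => by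
        have := Finset.mem_Icc.mp (ht1 s g); omega) (fun l => p (l + s))
      have h' : ((Wd N n k c (t s) σ (fun l => p (l + s)) : ℕ) : ℝ) ≤
          ((((Ue N n k c σ).filter (fun e =>
            p (ltr N n c (fun _ => 1) (σ.y (e + 1)) + s) ≤
              p (ltr N n c (fun _ => 1) (σ.y e) + s))).card +
          ∑ g ∈ range K, Tp N n k c σ g (fun l => p (l + s)) (t s g) : ℕ) : ℝ) := by
        exact_mod_cast h
      refine h'.trans (le_of_eq ?_)
      rw [Nat.cast_add, Nat.cast_sum]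
      congr 1
      · rw [Finset.sum_ite]; simp
      · apply Finset.sum_congr rfl
        intro g _
        rw [ht2 s g]
    refine (Finset.sum_le_sum hA).trans ?_
    rw [Finset.sum_add_distrib, Finset.sum_comm, Finset.sum_comm (s := range S) (t := range K)]
    have hB : ∑ e ∈ Ue N n k c σ, ∑ s ∈ range S,
        (if p (ltr N n c (fun _ => 1) (σ.y (e + 1)) + s) ≤
          p (ltr N n c (fun _ => 1) (σ.y e) + s) then (1:ℝ) else 0) ≤
        (Ue N n k c σ).card * (S * e1) := by
      rw [← nsmul_eq_mul]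
      apply Finset.sum_le_card_nsmul
      intro e he
      have hek := Finset.mem_range.mp (Finset.mem_filter.mp he).1
      have hy1 := σ.ylt e (by omega)
      have hy2 := σ.ylt (e + 1) (by omega)
      have hb1 := base_lt_of_lt N K k hk hNpos _ hy1
      have hb2 := base_lt_of_lt N K k hk hNpos _ hy2
      have hl1 : ltr N n c (fun _ => 1) (σ.y e) < k + K := by
        rcases ltr_mem N n c (fun _ => 1) (σ.y e) with h | h <;> omega
      have hl2 : ltr N n c (fun _ => 1) (σ.y (e + 1)) < k + K := by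
        rcases ltr_mem N n c (fun _ => 1) (σ.y (e + 1)) with h | h <;> omega
      exact edge_bound (4 * R) S C (k + K) p η hη hCS (8 * n) (by omega) hp _ _
        (fun h => by
          have h5 := (ltr_strictMono N n c (fun _ => 1)).injective h
          have h6 := σ.inj (by omega) (by omega) h5
          omega) hl1 hl2
    have hC : ∑ g ∈ range K, ∑ s ∈ range S, (((Finset.Icc 1 (n - 1)).inf' hI
          (fun τ => Tp N n k c σ g (fun l => p (l + s)) τ) : ℕ) : ℝ) ≤
        ∑ g ∈ range K, S * ((((Eg N n k c σ g).card : ℝ) - 1 + r0 + (n * (2 * n) : ℝ) / Q) / 2 +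
          η * (Q ^ (8 * n) * (2 * n))) := by
      apply Finset.sum_le_sum
      intro g hg
      have hg' := Finset.mem_range.mp hg
      exact group_bound N n (8 * n) K k R hR hN hk hn c σ hfree g hg' (hcM g hg') p S C η hη hCS hp hI
    refine (add_le_add hB hC).trans ?_
    rw [Finset.sum_const, Finset.card_range, nsmul_eq_mul, ← Finset.mul_sum]
    have hD : ∑ g ∈ range K, ((((Eg N n k c σ g).card : ℝ) - 1 + r0 + (n * (2 * n) : ℝ) / Q) / 2 +
          η * (Q ^ (8 * n) * (2 * n))) = (∑ g ∈ range K, ((Eg N n k c σ g).card : ℝ)) / 2 +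
          K * (-(1 / 2) + r0 / 2 + (n : ℝ) ^ 2 / Q + η * (Q ^ (8 * n) * (2 * n))) := by
      rw [Finset.sum_add_distrib, ← Finset.sum_div, Finset.sum_add_distrib, Finset.sum_add_distrib,
        Finset.sum_sub_distrib]
      simp only [Finset.sum_const, Finset.card_range, nsmul_eq_mul]
      ring
    rw [hD]
    have hcards := sum_card_le N n K k c σ hfree
    have hcards' : ((Ue N n k c σ).card : ℝ) + ∑ g ∈ range K, ((Eg N n k c σ g).card : ℝ) ≤ k := by
      have : (Ue N n k c σ).card + ∑ g ∈ range K, (Eg N n k c σ g).card ≤ k := by omega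
      exact_mod_cast this
    have hE0 : (0:ℝ) ≤ ∑ g ∈ range K, ((Eg N n k c σ g).card : ℝ) :=
      Finset.sum_nonneg fun g _ => Nat.cast_nonneg _
    have he1' : 1 / 2 ≤ e1 := by
      rw [he1]
      have h1 : (0:ℝ) ≤ 1 / (2 * Q) := by positivity
      have h2 : (0:ℝ) ≤ η * Q ^ 2 := by positivity
      linarith
    have hS0 : (0:ℝ) ≤ (S:ℝ) := Nat.cast_nonneg _
    have key : ((Ue N n k c σ).card : ℝ) * e1 + (∑ g ∈ range K, ((Eg N n k c σ g).card : ℝ)) / 2
        ≤ k * e1 := by
      have h1 : (∑ g ∈ range K, ((Eg N n k c σ g).card : ℝ)) / 2 ≤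
          (∑ g ∈ range K, ((Eg N n k c σ g).card : ℝ)) * e1 := by
        nlinarith
      have h2 : (((Ue N n k c σ).card : ℝ) + ∑ g ∈ range K, ((Eg N n k c σ g).card : ℝ)) * e1
          ≤ k * e1 := mul_le_mul_of_nonneg_right hcards' (by linarith)
      linarith
    have key2 := mul_le_mul_of_nonneg_left key hS0
    linarith
  obtain ⟨s, hs, hle⟩ := Finset.exists_le_of_sum_le (s := range S)
    (Finset.nonempty_range_iff.mpr (by omega)) hsum
  have hs' := Finset.mem_range.mp hs
  refine ⟨fun v => ltr N n c (t s) v + s, ?_, ?_, ?_⟩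
  · intro v v' h
    have := ltr_strictMono N n c (t s) h
    simp only
    omega
  · intro v hv
    have hb := base_lt_of_lt N K k hk hNpos _ hv
    simp only
    rcases ltr_mem N n c (t s) v with h | h <;> omega
  · exact hle

end Pool.Agent.Helper61.SP
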