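import Mathlib

set_option autoImplicit false

namespace Pool.Agent.Helper61.SP

open Finset

section rosenfeld
variable {ι : Type*} [Fintype ι] [DecidableEq ι] {M : ℕ}

open Classical in
theorem free_coord (P : (ι → Fin M) → Prop) (g : ι)
    (hP : ∀ c w, P c → P (Function.update c g w)) (w : Fin M) :
    M * (univ.filter (fun c => P c ∧ c g = w)).card = (univ.filter (fun c => P c)).card := by
  have h1 : (univ.filter (fun c : ι → Fin M => P c)).card =
      ∑ w' : Fin M, (univ.filter (fun c : ι → Fin M => P c ∧ c g = w')).card := by
    rw [Finset.card_eq_sum_card_fiberwise (f := fun c => c g) (t := univ)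
      (fun c _ => Finset.mem_coe.mpr (Finset.mem_univ _))]
    apply Finset.sum_congr rfl
    intro w' _
    congr 1
    ext c
    simp
  have h2 : ∀ w' : Fin M, (univ.filter (fun c : ι → Fin M => P c ∧ c g = w')).card =
      (univ.filter (fun c : ι → Fin M => P c ∧ c g = w)).card := by
    intro w'
    refine Finset.card_bij' (fun c _ => Function.update c g w) (fun c _ => Function.update c g w')
      ?_ ?_ ?_ ?_
    · intro c hc
      simp only [Finset.mem_filter, Finset.mem_univ, true_and] at hc ⊢
      exact ⟨hP c w hc.1, by simp⟩
    · intro c hc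
      simp only [Finset.mem_filter, Finset.mem_univ, true_and] at hc ⊢
      exact ⟨hP c w' hc.1, by simp⟩
    · intro c hc
      simp only [Finset.mem_filter, Finset.mem_univ, true_and] at hc
      simp only [Function.update_idem]
      rw [← hc.2, Function.update_eq_self]
    · intro c hc
      simp only [Finset.mem_filter, Finset.mem_univ, true_and] at hc
      simp only [Function.update_idem]
      rw [← hc.2, Function.update_eq_self]
  rw [h1]
  simp only [h2]
  simp

def Good (R : ι → Fin M → ι → Fin M → Prop) (A : Finset ι) (c : ι → Fin M) : Prop :=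
  ∀ g ∈ A, ∀ g' ∈ A, g ≠ g' → ¬ R g (c g) g' (c g')

open Classical in
theorem rosenfeld_step (R : ι → Fin M → ι → Fin M → Prop)
    (hsym : ∀ g w g' w', R g w g' w' → R g' w' g w) (d : ℕ)
    (hd : ∀ g w, (univ.filter (fun x : ι × Fin M => R g w x.1 x.2)).card ≤ d)
    (hM : 4 * d ≤ M) (hM0 : 0 < M) : ∀ (n : ℕ) (A : Finset ι), A.card = n → ∀ g ∉ A,
      (univ.filter (fun c => Good R A c)).card ≤
        2 * (univ.filter (fun c => Good R (insert g A) c)).card := by
  intro n
  induction n using Nat.strong_induction_on with
  | _ n ih =>
    intro A hA g hg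
    set F := (univ.filter (fun c => Good R A c)).card with hF
    -- bad ones
    let bad := univ.filter (fun c : ι → Fin M => Good R A c ∧ ∃ g' ∈ A, R g (c g) g' (c g'))
    have hsplit : (univ.filter (fun c => Good R A c)) ⊆
        (univ.filter (fun c => Good R (insert g A) c)) ∪ bad := by
      intro c hc
      simp only [Finset.mem_filter, Finset.mem_univ, true_and, Finset.mem_union, bad] at hc ⊢
      by_cases h : ∃ g' ∈ A, R g (c g) g' (c g')
      · right; exact ⟨hc, h⟩
      · left
        push Not at h
        intro x hx y hy hxy
        rcases Finset.mem_insert.mp hx with rfl | hx'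
        · rcases Finset.mem_insert.mp hy with rfl | hy'
          · exact absurd rfl hxy
          · exact h y hy'
        · rcases Finset.mem_insert.mp hy with rfl | hy'
          · intro hR
            exact h x hx' (hsym _ _ _ _ hR)
          · exact hc x hx' y hy' hxy
    have hcard1 : F ≤ (univ.filter (fun c => Good R (insert g A) c)).card + bad.card :=
      (Finset.card_le_card hsplit).trans (Finset.card_union_le _ _)
    -- bound of a piece
    have hpiece : ∀ w : Fin M, ∀ g' ∈ A, ∀ w' : Fin M,
        M * (M * (univ.filter (fun c : ι → Fin M => (Good R A c ∧ c g' = w') ∧ c g = w)).card)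
          ≤ 2 * F := by
      intro w g' hg' w'
      have hgg' : g ≠ g' := fun h => hg (h ▸ hg')
      have hsub : (univ.filter (fun c : ι → Fin M => (Good R A c ∧ c g' = w') ∧ c g = w)).card ≤
          (univ.filter (fun c : ι → Fin M => (Good R (A.erase g') c ∧ c g' = w') ∧ c g = w)).card := by
        apply Finset.card_le_card
        intro c hc
        simp only [Finset.mem_filter, Finset.mem_univ, true_and] at hc ⊢
        refine ⟨⟨?_, hc.1.2⟩, hc.2⟩
        intro x hx y hy hxy
        exact hc.1.1 x (Finset.mem_of_mem_erase hx) y (Finset.mem_of_mem_erase hy) hxy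
      have hfree1 := free_coord (fun c : ι → Fin M => Good R (A.erase g') c ∧ c g' = w') g
        (by
          intro c w1 hc
          refine ⟨?_, ?_⟩
          · intro x hx y hy hxy
            have hxg : x ≠ g := fun h => hg (h ▸ Finset.mem_of_mem_erase hx)
            have hyg : y ≠ g := fun h => hg (h ▸ Finset.mem_of_mem_erase hy)
            rw [Function.update_of_ne hxg, Function.update_of_ne hyg]
            exact hc.1 x hx y hy hxy
          · rw [Function.update_of_ne (Ne.symm hgg')]
            exact hc.2) w
      have hfree2 := free_coord (fun c : ι → Fin M => Good R (A.erase g') c) g'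
        (by
          intro c w1 hc
          intro x hx y hy hxy
          have hxg : x ≠ g' := Finset.ne_of_mem_erase hx
          have hyg : y ≠ g' := Finset.ne_of_mem_erase hy
          rw [Function.update_of_ne hxg, Function.update_of_ne hyg]
          exact hc x hx y hy hxy) w'
      have hih := ih (A.erase g').card (by
        rw [← hA]; exact Finset.card_erase_lt_of_mem hg') (A.erase g') rfl g'
        (Finset.notMem_erase g' A)
      rw [Finset.insert_erase hg'] at hih
      calc M * (M * (univ.filter (fun c : ι → Fin M => (Good R A c ∧ c g' = w') ∧ c g = w)).card)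
          ≤ M * (M * (univ.filter (fun c : ι → Fin M =>
              (Good R (A.erase g') c ∧ c g' = w') ∧ c g = w)).card) := by
            apply Nat.mul_le_mul_left
            apply Nat.mul_le_mul_left
            exact hsub
        _ = M * (univ.filter (fun c : ι → Fin M => Good R (A.erase g') c ∧ c g' = w')).card := by
            congr 1
            convert hfree1
        _ = (univ.filter (fun c : ι → Fin M => Good R (A.erase g') c)).card := by
            convert hfree2
        _ ≤ 2 * F := hih
    have hbadsub : bad ⊆ (univ : Finset (Fin M)).biUnion (fun w =>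
        ((univ.filter (fun x : ι × Fin M => R g w x.1 x.2)).filter (fun x => x.1 ∈ A)).biUnion
          (fun x => univ.filter (fun c : ι → Fin M => (Good R A c ∧ c x.1 = x.2) ∧ c g = w))) := by
      intro c hc
      simp only [bad, Finset.mem_filter, Finset.mem_univ, true_and] at hc
      obtain ⟨hc1, g', hg', hR⟩ := hc
      simp only [Finset.mem_biUnion, Finset.mem_univ, true_and, Finset.mem_filter]
      exact ⟨c g, (g', c g'), ⟨hR, hg'⟩, ⟨hc1, rfl⟩, rfl⟩
    have hbadcard : M * (M * bad.card) ≤ M * (d * (2 * F)) := by
      calc M * (M * bad.card) ≤ M * (M * ∑ w : Fin M, ∑ x ∈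
            (univ.filter (fun x : ι × Fin M => R g w x.1 x.2)).filter (fun x => x.1 ∈ A),
            (univ.filter (fun c : ι → Fin M => (Good R A c ∧ c x.1 = x.2) ∧ c g = w)).card) := by
            apply Nat.mul_le_mul_left
            apply Nat.mul_le_mul_left
            refine (Finset.card_le_card hbadsub).trans (Finset.card_biUnion_le.trans ?_)
            exact Finset.sum_le_sum fun w _ => Finset.card_biUnion_le
        _ = ∑ w : Fin M, ∑ x ∈
            (univ.filter (fun x : ι × Fin M => R g w x.1 x.2)).filter (fun x => x.1 ∈ A),
            M * (M * (univ.filter (fun c : ι → Fin M => (Good R A c ∧ c x.1 = x.2) ∧ c g = w)).card) := by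
            simp only [Finset.mul_sum]
        _ ≤ ∑ w : Fin M, ∑ x ∈
            (univ.filter (fun x : ι × Fin M => R g w x.1 x.2)).filter (fun x => x.1 ∈ A), 2 * F := by
            apply Finset.sum_le_sum
            intro w _
            apply Finset.sum_le_sum
            intro x hx
            exact hpiece w x.1 (Finset.mem_filter.mp hx).2 x.2
        _ ≤ ∑ _w : Fin M, d * (2 * F) := by
            apply Finset.sum_le_sum
            intro w _
            rw [Finset.sum_const, smul_eq_mul]
            apply Nat.mul_le_mul_right
            exact (Finset.card_filter_le _ _).trans (hd g w)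
        _ = M * (d * (2 * F)) := by simp
    have h3 : M * bad.card ≤ d * (2 * F) := Nat.le_of_mul_le_mul_left hbadcard hM0
    have h4 : 2 * bad.card ≤ F := by
      have h5 : M * (2 * bad.card) ≤ M * F := by
        calc M * (2 * bad.card) = 2 * (M * bad.card) := by ring
          _ ≤ 2 * (d * (2 * F)) := Nat.mul_le_mul_left _ h3
          _ = (4 * d) * F := by ring
          _ ≤ M * F := Nat.mul_le_mul_right _ hM
      exact Nat.le_of_mul_le_mul_left h5 hM0
    omega

open Classical in
/-- independent transversals (Rosenfeld's counting argument) -/
theorem exists_transversal (R : ι → Fin M → ι → Fin M → Prop)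
    (hsym : ∀ g w g' w', R g w g' w' → R g' w' g w) (d : ℕ)
    (hd : ∀ g w, (univ.filter (fun x : ι × Fin M => R g w x.1 x.2)).card ≤ d)
    (hM : 4 * d ≤ M) (hM0 : 0 < M) :
    ∃ c : ι → Fin M, ∀ g g', g ≠ g' → ¬ R g (c g) g' (c g') := by
  have key : ∀ A : Finset ι, 0 < (univ.filter (fun c => Good R A c)).card := by
    intro A
    induction A using Finset.induction_on with
    | empty =>
      rw [Finset.card_pos]
      exact ⟨fun _ => ⟨0, hM0⟩, by simp [Good]⟩
    | insert g A hg ih =>
      have := rosenfeld_step R hsym d hd hM hM0 A.card A rfl g hg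
      omega
  obtain ⟨c, hc⟩ := Finset.card_pos.mp (key univ)
  simp only [Finset.mem_filter, Finset.mem_univ, true_and] at hc
  exact ⟨c, fun g g' h => hc g (Finset.mem_univ _) g' (Finset.mem_univ _) h⟩

end rosenfeld

open Classical in
/-- greedy independent subset -/
theorem exists_indep {α : Type*} (conf : α → α → Prop) (hsym : ∀ a b, conf a b → conf b a)
    (d : ℕ) : ∀ (n : ℕ) (I : Finset α), I.card = n →
    (∀ a ∈ I, conf a a) →
    (∀ a ∈ I, (I.filter (fun b => conf a b)).card ≤ d) →
    ∃ X ⊆ I, I.card ≤ d * X.card ∧ ∀ a ∈ X, ∀ b ∈ X, a ≠ b → ¬ conf a b := by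
  intro n
  induction n using Nat.strong_induction_on with
  | _ n ih =>
    intro I hI hrefl hd
    rcases I.eq_empty_or_nonempty with rfl | ⟨a, ha⟩
    · exact ⟨∅, Finset.Subset.refl _, by simp, by simp⟩
    · let I' := I.filter (fun b => ¬ conf a b)
      have hlt : I'.card < n := by
        rw [← hI]
        apply Finset.card_lt_card
        rw [Finset.ssubset_iff_of_subset (Finset.filter_subset _ _)]
        exact ⟨a, ha, by simp [hrefl a ha]⟩
      obtain ⟨X, hX, hcard, hind⟩ := ih I'.card hlt I' rfl
        (fun b hb => hrefl b (Finset.mem_filter.mp hb).1)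
        (fun b hb => (Finset.card_le_card (Finset.filter_subset_filter _
          (Finset.filter_subset _ _))).trans (hd b (Finset.mem_filter.mp hb).1))
      have haX : a ∉ X := by
        intro h
        have := (Finset.mem_filter.mp (hX h)).2
        exact this (hrefl a ha)
      refine ⟨insert a X, ?_, ?_, ?_⟩
      · intro b hb
        rcases Finset.mem_insert.mp hb with rfl | hb
        · exact ha
        · exact (Finset.mem_filter.mp (hX hb)).1
      · rw [Finset.card_insert_of_notMem haX]
        have h1 := Finset.card_filter_add_card_filter_not (s := I) (fun b => conf a b)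
        have h2 := hd a ha
        have h3 : I'.card = (I.filter (fun b => ¬ conf a b)).card := rfl
        rw [mul_add, mul_one]
        omega
      · intro x hx y hy hxy
        rcases Finset.mem_insert.mp hx with rfl | hx'
        · rcases Finset.mem_insert.mp hy with rfl | hy'
          · exact absurd rfl hxy
          · exact (Finset.mem_filter.mp (hX hy')).2
        · rcases Finset.mem_insert.mp hy with rfl | hy'
          · intro h
            exact (Finset.mem_filter.mp (hX hx')).2 (hsym _ _ h)
          · exact hind x hx' y hy' hxy

end Pool.Agent.Helper61.SP
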