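import Pool.Agent.Helper61.SP.Const
import Pool.Agent.Helper61.SP.Trans

set_option autoImplicit false

namespace Pool.Agent.Helper61.SP

open Finset

def base (N v : ℕ) : ℕ := v + v / N

def wst (N n : ℕ) (c : ℕ → ℕ) (g : ℕ) : ℕ := g * N + c g * n

/-- letter of the value `v` for the window choice `c` and the skip positions `t` -/
def ltr (N n : ℕ) (c t : ℕ → ℕ) (v : ℕ) : ℕ :=
  base N v + (if wst N n c (v / N) + t (v / N) ≤ v then 1 else 0)

/-- interior values of the chosen windows -/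
def Intr (N n : ℕ) (c : ℕ → ℕ) (v : ℕ) : Prop :=
  wst N n c (v / N) + 1 ≤ v ∧ v + 2 ≤ wst N n c (v / N) + n

instance (N n : ℕ) (c : ℕ → ℕ) (v : ℕ) : Decidable (Intr N n c v) := by
  unfold Intr; infer_instance

theorem ltr_strictMono (N n : ℕ) (c t : ℕ → ℕ) : StrictMono (ltr N n c t) := by
  intro v v' h
  unfold ltr base
  have h1 : v / N ≤ v' / N := Nat.div_le_div_right h.le
  rcases h1.lt_or_eq with h2 | h2
  · split_ifs <;> omega
  · rw [← h2]
    split_ifs <;> omega

theorem ltr_mem (N n : ℕ) (c t : ℕ → ℕ) (v : ℕ) :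
    ltr N n c t v = base N v ∨ ltr N n c t v = base N v + 1 := by
  unfold ltr; split_ifs
  · right; rfl
  · left; rfl

theorem base_lt (N : ℕ) {v v' : ℕ} (h : v + 2 ≤ v') : base N v + 1 < base N v' := by
  unfold base
  have h1 : v / N ≤ v' / N := Nat.div_le_div_right (by omega)
  omega

theorem ltr_fixed (N n : ℕ) (c t t' : ℕ → ℕ) (v : ℕ) (hv : ¬ Intr N n c v)
    (h1 : 1 ≤ t (v / N)) (h2 : t (v / N) + 1 ≤ n) (h1' : 1 ≤ t' (v / N)) (h2' : t' (v / N) + 1 ≤ n) :
    ltr N n c t v = ltr N n c t' v := by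
  unfold ltr
  unfold Intr at hv
  congr 1
  by_cases h : wst N n c (v / N) + 1 ≤ v
  · have h3 : ¬ (v + 2 ≤ wst N n c (v / N) + n) := fun h' => hv ⟨h, h'⟩
    rw [if_pos (by omega), if_pos (by omega)]
  · rw [if_neg (by omega), if_neg (by omega)]

theorem ltr_step (N n : ℕ) (c : ℕ → ℕ) (τ v : ℕ) (hv : v ≠ wst N n c (v / N) + τ) :
    ltr N n c (fun _ => τ) v = ltr N n c (fun _ => τ + 1) v := by
  unfold ltr
  congr 1
  simp only
  by_cases h : wst N n c (v / N) + τ ≤ v
  · rw [if_pos h, if_pos (by omega)]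
  · rw [if_neg h, if_neg (by omega)]

/-- data: a bijective sequence of values -/
structure Seq (k : ℕ) where
  y : ℕ → ℕ
  yi : ℕ → ℕ
  ylt : ∀ i, i < k → y i < k
  yilt : ∀ v, v < k → yi v < k
  yiy : ∀ i, i < k → yi (y i) = i
  yyi : ∀ v, v < k → y (yi v) = v

theorem Seq.inj {k : ℕ} (σ : Seq k) {i j : ℕ} (hi : i < k) (hj : j < k) (h : σ.y i = σ.y j) : i = j := by
  rw [← σ.yiy i hi, ← σ.yiy j hj, h]

/-- edges touching the interior of the window of the group `g` -/
def Eg (N n k : ℕ) (c : ℕ → ℕ) (σ : Seq k) (g : ℕ) : Finset ℕ :=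
  (range (k - 1)).filter (fun e => (Intr N n c (σ.y e) ∧ σ.y e / N = g) ∨
    (Intr N n c (σ.y (e + 1)) ∧ σ.y (e + 1) / N = g))

/-- number of values in the interior of a window -/
theorem card_window (N n k : ℕ) (c : ℕ → ℕ) (σ : Seq k) (g : ℕ) (f : ℕ → ℕ)
    (hf : ∀ i j, f i < k → f j < k → f i = f j → i = j) (I : Finset ℕ) (hI : ∀ e ∈ I, f e < k) :
    (I.filter (fun e => Intr N n c (σ.y (f e)) ∧ σ.y (f e) / N = g)).card ≤ n := by
  have h : (I.filter (fun e => Intr N n c (σ.y (f e)) ∧ σ.y (f e) / N = g)).card ≤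
      (Finset.Ico (wst N n c g) (wst N n c g + n)).card := by
    apply Finset.card_le_card_of_injOn (fun e => σ.y (f e))
    · intro e he
      have he' := (Finset.mem_filter.mp he).2
      unfold Intr at he'
      rw [he'.2] at he'
      simp only [Finset.coe_Ico, Set.mem_Ico]
      omega
    · intro e he e' he' hee
      have h1 := hI e (Finset.mem_filter.mp he).1
      have h2 := hI e' (Finset.mem_filter.mp he').1
      exact hf e e' h1 h2 (σ.inj h1 h2 hee)
  simpa using h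

theorem card_Eg (N n k : ℕ) (c : ℕ → ℕ) (σ : Seq k) (g : ℕ) : (Eg N n k c σ g).card ≤ 2 * n := by
  unfold Eg
  rw [Finset.filter_or]
  refine (Finset.card_union_le _ _).trans ?_
  have h1 := card_window N n k c σ g (fun e => e) (fun i j _ _ h => h) (range (k - 1))
    (fun e he => by have := Finset.mem_range.mp he; omega)
  have h2 := card_window N n k c σ g (fun e => e + 1) (fun i j _ _ h => by omega) (range (k - 1))
    (fun e he => by have := Finset.mem_range.mp he; omega)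
  omega

/-- letters relevant for the group `g` -/
def Dg (N n k : ℕ) (c : ℕ → ℕ) (σ : Seq k) (g : ℕ) : Finset ℕ :=
  (Eg N n k c σ g).biUnion (fun e => {base N (σ.y e), base N (σ.y e) + 1,
    base N (σ.y (e + 1)), base N (σ.y (e + 1)) + 1})

theorem card_Dg (N n k : ℕ) (c : ℕ → ℕ) (σ : Seq k) (g : ℕ) : (Dg N n k c σ g).card ≤ 8 * n := by
  unfold Dg
  refine Finset.card_biUnion_le.trans ?_
  calc ∑ e ∈ Eg N n k c σ g, ({base N (σ.y e), base N (σ.y e) + 1,
        base N (σ.y (e + 1)), base N (σ.y (e + 1)) + 1} : Finset ℕ).card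
      ≤ ∑ _e ∈ Eg N n k c σ g, 4 := Finset.sum_le_sum fun e _ => Finset.card_le_four
    _ = (Eg N n k c σ g).card * 4 := by simp
    _ ≤ 8 * n := by have := card_Eg N n k c σ g; omega

theorem ltr_mem_Dg1 (N n k : ℕ) (c t : ℕ → ℕ) (σ : Seq k) (g e : ℕ) (he : e ∈ Eg N n k c σ g) :
    ltr N n c t (σ.y e) ∈ Dg N n k c σ g := by
  unfold Dg
  rw [Finset.mem_biUnion]
  refine ⟨e, he, ?_⟩
  rcases ltr_mem N n c t (σ.y e) with h | h <;> simp [h]

theorem ltr_mem_Dg2 (N n k : ℕ) (c t : ℕ → ℕ) (σ : Seq k) (g e : ℕ) (he : e ∈ Eg N n k c σ g) :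
    ltr N n c t (σ.y (e + 1)) ∈ Dg N n k c σ g := by
  unfold Dg
  rw [Finset.mem_biUnion]
  refine ⟨e, he, ?_⟩
  rcases ltr_mem N n c t (σ.y (e + 1)) with h | h <;> simp [h]

/-- the candidates for the disjointness argument -/
def Jg (N n k : ℕ) (c : ℕ → ℕ) (σ : Seq k) (g : ℕ) : Finset ℕ :=
  (range k).filter (fun j => 1 ≤ j ∧ j + 1 < k ∧ Intr N n c (σ.y j) ∧ σ.y j / N = g)

theorem card_Jg (N n M K k : ℕ) (hN : N = n * M) (hk : k = K * N) (c : ℕ → ℕ)
    (σ : Seq k) (g : ℕ) (hg : g < K) (hc : c g < M) (hn : 2 ≤ n) :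
    n - 4 ≤ (Jg N n k c σ g).card := by
  have hNpos : 0 < N := by
    rw [hN]; exact Nat.mul_pos (by omega) (by omega)
  have hwend : wst N n c g + n ≤ (g + 1) * N := by
    unfold wst
    have h1 : c g * n + n ≤ N := by
      rw [hN]
      calc c g * n + n = (c g + 1) * n := by ring
        _ ≤ M * n := Nat.mul_le_mul_right _ hc
        _ = n * M := by ring
    nlinarith
  have hgK : (g + 1) * N ≤ k := by rw [hk]; exact Nat.mul_le_mul_right _ hg
  have hdiv : ∀ v, wst N n c g ≤ v → v < wst N n c g + n → v / N = g := by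
    intro v h1 h2
    have h3 : g * N ≤ v := by unfold wst at h1; omega
    have h4 : v < (g + 1) * N := by omega
    exact Nat.div_eq_of_lt_le h3 h4
  have h : ((Finset.Ico (wst N n c g + 1) (wst N n c g + n - 1)) \ {σ.y 0, σ.y (k - 1)}).card ≤
      (Jg N n k c σ g).card := by
    apply Finset.card_le_card_of_injOn (fun v => σ.yi v)
    · intro v hv
      simp only [Finset.coe_sdiff, Finset.coe_Ico, Finset.coe_insert, Finset.coe_singleton,
        Set.mem_sdiff, Set.mem_Ico, Set.mem_insert_iff, Set.mem_singleton_iff, not_or] at hv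
      obtain ⟨⟨h1, h2⟩, h3, h4⟩ := hv
      have hvk : v < k := by omega
      have hd := hdiv v (by omega) (by omega)
      unfold Jg
      simp only [Finset.coe_filter, Set.mem_ofPred_eq, Finset.mem_range]
      have hyi := σ.yilt v hvk
      have hyy := σ.yyi v hvk
      refine ⟨hyi, ?_, ?_, ?_, ?_⟩
      · rcases Nat.eq_zero_or_pos (σ.yi v) with h0 | h0
        · exfalso; apply h3; rw [← hyy, h0]
        · exact h0
      · rcases Nat.lt_or_ge (σ.yi v + 1) k with h0 | h0
        · exact h0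
        · exfalso; apply h4
          have : σ.yi v = k - 1 := by omega
          rw [← this, hyy]
      · rw [hyy]; unfold Intr; rw [hd]; constructor <;> omega
      · rw [hyy]; exact hd
    · intro v hv v' hv' hvv
      simp only [Finset.coe_sdiff, Finset.coe_Ico, Set.mem_sdiff, Set.mem_Ico] at hv hv'
      have h1 := σ.yyi v (by omega)
      have h2 := σ.yyi v' (by omega)
      have hvv' : σ.yi v = σ.yi v' := hvv
      rw [← h1, ← h2, hvv']
  have h2 := Finset.le_card_sdiff ({σ.y 0, σ.y (k - 1)} : Finset ℕ)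
    (Finset.Ico (wst N n c g + 1) (wst N n c g + n - 1))
  have h3 : ({σ.y 0, σ.y (k - 1)} : Finset ℕ).card ≤ 2 := Finset.card_le_two
  rw [Nat.card_Ico] at h2
  omega

def conf {k : ℕ} (σ : Seq k) (i j : ℕ) : Prop :=
  ∃ α < 3, ∃ β < 3, σ.y (i + α - 1) ≤ σ.y (j + β - 1) + 1 ∧ σ.y (j + β - 1) ≤ σ.y (i + α - 1) + 1

theorem conf_symm {k : ℕ} (σ : Seq k) (i j : ℕ) (h : conf σ i j) : conf σ j i := by
  obtain ⟨α, hα, β, hβ, h1, h2⟩ := h
  exact ⟨β, hβ, α, hα, h2, h1⟩

open Classical in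
theorem card_conf (N n k : ℕ) (c : ℕ → ℕ) (σ : Seq k) (g i : ℕ) :
    ((Jg N n k c σ g).filter (fun j => conf σ i j)).card ≤ 27 := by
  have h : (Jg N n k c σ g).filter (fun j => conf σ i j) ⊆
      (((range 3) ×ˢ (range 3)) ×ˢ (range 3)).image
        (fun x => σ.yi (σ.y (i + x.1.1 - 1) + x.1.2 - 1) + 1 - x.2) := by
    intro j hj
    rw [Finset.mem_filter] at hj
    obtain ⟨hj1, α, hα, β, hβ, h1, h2⟩ := hj
    unfold Jg at hj1
    rw [Finset.mem_filter, Finset.mem_range] at hj1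
    obtain ⟨hjk, hj2, hj3, _⟩ := hj1
    rw [Finset.mem_image]
    refine ⟨((α, σ.y (j + β - 1) + 1 - σ.y (i + α - 1)), β), ?_, ?_⟩
    · simp only [Finset.mem_product, Finset.mem_range]
      refine ⟨⟨hα, ?_⟩, hβ⟩
      omega
    · simp only
      have e1 : σ.y (i + α - 1) + (σ.y (j + β - 1) + 1 - σ.y (i + α - 1)) - 1 = σ.y (j + β - 1) := by
        omega
      rw [e1, σ.yiy (j + β - 1) (by omega)]
      omega
  refine (Finset.card_le_card h).trans (Finset.card_image_le.trans ?_)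
  simp

end Pool.Agent.Helper61.SP
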