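import Pool.Agent.Helper61.SP.Total

set_option autoImplicit false

namespace Pool.Agent.Helper61.SP

open Finset

/-- the sequence of values of a permutation -/
def seqOf {k : ℕ} (σ : Equiv.Perm (Fin k)) : Seq k where
  y := fun i => if h : i < k then (σ ⟨i, h⟩ : ℕ) else i
  yi := fun v => if h : v < k then (σ.symm ⟨v, h⟩ : ℕ) else v
  ylt := by
    intro i hi
    simp only [hi, dif_pos]
    exact (σ ⟨i, hi⟩).2
  yilt := by
    intro i hi
    simp only [hi, dif_pos]
    exact (σ.symm ⟨i, hi⟩).2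
  yiy := by
    intro i hi
    simp [hi]
  yyi := by
    intro i hi
    simp [hi]

theorem seqOf_y {k : ℕ} (σ : Equiv.Perm (Fin k)) (i : Fin k) : (seqOf σ).y i = (σ i : ℕ) := by
  simp [seqOf]

def bl {Q : ℕ} (p : ℕ → Fin Q) (x : ℕ → ℕ) (i : ℕ) : ℕ :=
  ((range i).filter (fun e => p (x (e + 1)) ≤ p (x e))).card

theorem bl_mono {Q : ℕ} (p : ℕ → Fin Q) (x : ℕ → ℕ) {i j : ℕ} (h : i ≤ j) :
    bl p x i ≤ bl p x j := by
  unfold bl
  apply Finset.card_le_card
  apply Finset.filter_subset_filter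
  exact Finset.range_subset_range.mpr h

theorem bl_succ {Q : ℕ} (p : ℕ → Fin Q) (x : ℕ → ℕ) (i : ℕ) :
    bl p x (i + 1) = bl p x i + (if p (x (i + 1)) ≤ p (x i) then 1 else 0) := by
  unfold bl
  rw [Finset.range_add_one, Finset.filter_insert]
  split_ifs with h
  · rw [Finset.card_insert_of_notMem (by simp)]
  · rfl

theorem lt_of_bl_eq {Q : ℕ} (p : ℕ → Fin Q) (x : ℕ → ℕ) (i : ℕ) : ∀ d : ℕ,
    bl p x (i + d + 1) = bl p x i → p (x i) < p (x (i + d + 1))
  | 0, h => by
    rw [add_zero, bl_succ] at h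
    by_contra hc
    rw [add_zero, not_lt] at hc
    rw [if_pos hc] at h
    omega
  | d + 1, h => by
    have h1 : bl p x i ≤ bl p x (i + d + 1) := bl_mono p x (by omega)
    have h2 : bl p x (i + (d + 1) + 1) = bl p x (i + d + 1) +
        (if p (x (i + d + 1 + 1)) ≤ p (x (i + d + 1)) then 1 else 0) := bl_succ p x (i + d + 1)
    have h3 : bl p x (i + d + 1) = bl p x i := by
      split_ifs at h2 <;> omega
    have ih := lt_of_bl_eq p x i d h3
    have h4 : ¬ p (x (i + d + 1 + 1)) ≤ p (x (i + d + 1)) := by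
      intro hc
      rw [if_pos hc] at h2
      omega
    exact ih.trans (not_le.mp h4)

theorem exists_word (k r m Q : ℕ) (hr : 0 < r) (p : ℕ → Fin Q)
    (h : ∀ σ : Seq k, ∃ φ : ℕ → ℕ, StrictMono φ ∧ (∀ v, v < k → φ v < r) ∧
      ((range (k - 1)).filter (fun e => p (φ (σ.y (e + 1))) ≤ p (φ (σ.y e)))).card < m) :
    ∃ w : List ℕ, w.length = m * r ∧ (∀ x ∈ w, x < r) ∧
      ∀ σ : Equiv.Perm (Fin k), ∃ e : Fin k → Fin w.length,
        StrictMono e ∧ ∀ i j : Fin k, (w.get (e i) < w.get (e j) ↔ σ i < σ j) := by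
  let p' : Fin r → Fin Q := fun x => p x
  let s : Equiv.Perm (Fin r) := Tuple.sort p'
  have hs : Monotone (p' ∘ s) := Tuple.monotone_sort p'
  let f : Fin (m * r) → ℕ := fun i => ((s ⟨i % r, Nat.mod_lt _ hr⟩ : Fin r) : ℕ)
  have hlen : (List.ofFn f).length = m * r := List.length_ofFn
  refine ⟨List.ofFn f, hlen, ?_, ?_⟩
  · intro x hx
    rw [List.mem_ofFn] at hx
    obtain ⟨i, rfl⟩ := hx
    exact (s _).2
  · intro σ
    obtain ⟨φ, hφ, hφr, hcard⟩ := h (seqOf σ)
    let x : ℕ → ℕ := fun i => φ ((seqOf σ).y i)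
    have hxr : ∀ i : Fin k, x i < r := fun i => hφr _ ((seqOf σ).ylt i i.2)
    have hbl : ∀ i : Fin k, bl p x i < m := by
      intro i
      refine lt_of_le_of_lt (bl_mono p x (j := k - 1) ?_) hcard
      have := i.2
      omega
    have hval : ∀ i : Fin k, bl p x i * r + (s.symm ⟨x i, hxr i⟩ : ℕ) < m * r := by
      intro i
      have h1 : (bl p x i + 1) * r ≤ m * r := Nat.mul_le_mul_right _ (hbl i)
      have h2 := (s.symm ⟨x i, hxr i⟩).2
      have h3 : (bl p x i + 1) * r = bl p x i * r + r := by ring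
      omega
    refine ⟨fun i => Fin.cast hlen.symm ⟨bl p x i * r + (s.symm ⟨x i, hxr i⟩ : ℕ), hval i⟩, ?_, ?_⟩
    · intro i j hij
      rw [Fin.lt_def]
      simp only [Fin.val_cast]
      have hij' : (i:ℕ) < j := hij
      have hb : bl p x i ≤ bl p x j := bl_mono p x hij'.le
      rcases hb.lt_or_eq with hlt | heq
      · have h1 : (bl p x i + 1) * r ≤ bl p x j * r := Nat.mul_le_mul_right _ hlt
        have h2 := (s.symm ⟨x i, hxr i⟩).2
        have h3 : (bl p x i + 1) * r = bl p x i * r + r := by ring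
        omega
      · obtain ⟨d, hd⟩ : ∃ d, (j:ℕ) = i + d + 1 := ⟨j - i - 1, by omega⟩
        have h1 : p (x i) < p (x j) := by
          rw [hd]
          apply lt_of_bl_eq
          rw [← hd]
          exact heq.symm
        have h2 : s.symm ⟨x i, hxr i⟩ < s.symm ⟨x j, hxr j⟩ := by
          by_contra hc
          rw [not_lt] at hc
          have h3 := hs hc
          simp only [Function.comp, Equiv.apply_symm_apply] at h3
          exact absurd h1 (not_lt.mpr h3)
        have h3 : (s.symm ⟨x i, hxr i⟩ : ℕ) < (s.symm ⟨x j, hxr j⟩ : ℕ) := h2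
        rw [heq]
        omega
    · intro i j
      have hget : ∀ i : Fin k, (List.ofFn f).get (Fin.cast hlen.symm
          ⟨bl p x i * r + (s.symm ⟨x i, hxr i⟩ : ℕ), hval i⟩) = φ (σ i : ℕ) := by
        intro i
        rw [List.get_ofFn]
        simp only [f, Fin.cast_cast, Fin.cast_eq_self]
        have h1 : (bl p x i * r + (s.symm ⟨x i, hxr i⟩ : ℕ)) % r = (s.symm ⟨x i, hxr i⟩ : ℕ) := by
          rw [Nat.add_comm, Nat.add_mul_mod_self_right]
          exact Nat.mod_eq_of_lt (s.symm ⟨x i, hxr i⟩).2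
        have h2 : (⟨(bl p x i * r + (s.symm ⟨x i, hxr i⟩ : ℕ)) % r, Nat.mod_lt _ hr⟩ : Fin r)
            = s.symm ⟨x i, hxr i⟩ := Fin.ext h1
        rw [h2, Equiv.apply_symm_apply]
        simp only [x, seqOf_y]
      rw [hget i, hget j]
      rw [hφ.lt_iff_lt]
      exact Iff.rfl

end Pool.Agent.Helper61.SP
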